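import Pool.Agent.VPR.Q

/-!
# Products of differences of points

`Dd T p q` is the class of the product of the differences `p_j - q_j` for `j` in `T` and the points `q_j`
for the other `j`.

* `Dd_split`: for `b ∈ T` the subsets of `T` are `R` and `insert b R` for `R ⊆ T.erase b`.
* `eq1_env`, `eq2_env`: the push-forward of `h.eq1`, `h.eq2` by the morphism from `fun _ : Fin 1 => X b`
  (or `fun _ : Fin 2 => X b`) to `X` with the components `some 0` at `b` (and `some 1` at `c`),
  automorphisms `e`, and constant components `p j` elsewhere (`h.push`, `h.act_e`; the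
  transport along `X b = X c` is `hbc ▸ _`).
* `Dd_act1`: `Dd_split` for `b` and `eq1_env` for every summand.
* `Dd_act`: induction on the set of the `j` where the automorphism has been applied (`Dd_act1`).
* `Dd_swap`: `Dd_split` twice (for `b` and `c`), `eq2_env` for every summand.
-/

set_option autoImplicit false

noncomputable section

namespace Pool.Agent.VPR

open scoped Classical

variable {𝒯 : Thy} {r r' : ℕ} {X : Fin r → 𝒯.L}

/-- the product of the differences `p j - q j` for `j ∈ T` and of the `q j` for the other `j` -/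
def Dd (T : Finset (Fin r)) (p q : Pts X) : V X :=
  ∑ R ∈ T.powerset, (-1 : ℚ) ^ (T \ R).card • cl (mix R p q)

/-- only the components of `p` in `T` are used -/
theorem Dd_congr {T : Finset (Fin r)} {p p' q : Pts X} (h : ∀ j ∈ T, p j = p' j) :
    Dd T p q = Dd T p' q := by
  unfold Dd
  refine Finset.sum_congr rfl fun R hR => ?_
  have h1 : mix R p q = mix R p' q := by
    funext j
    unfold mix
    by_cases hj : j ∈ R
    · rw [if_pos hj, if_pos hj, h j (Finset.mem_powerset.1 hR hj)]
    · rw [if_neg hj, if_neg hj]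
  rw [h1]

private theorem upd_notMem_Dd {R : Finset (Fin r)} {b : Fin r} (hb : b ∉ R) (p q : Pts X) :
    Function.update (mix R p q) b (q b) = mix R p q := by
  rw [Function.update_eq_self_iff]
  unfold mix
  rw [if_neg hb]

private theorem upd_insert_Dd (R : Finset (Fin r)) (b : Fin r) (p q : Pts X) :
    Function.update (mix R p q) b (p b) = mix (insert b R) p q := by
  funext j
  by_cases hj : j = b
  · subst hj
    rw [Function.update_self]
    unfold mix
    rw [if_pos (Finset.mem_insert_self _ _)]
  · rw [Function.update_of_ne hj]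
    unfold mix
    by_cases hR : j ∈ R
    · rw [if_pos hR, if_pos (Finset.mem_insert_of_mem hR)]
    · rw [if_neg hR, if_neg]
      rw [Finset.mem_insert]
      tauto

private theorem card_sdiff_Dd {T R : Finset (Fin r)} {b : Fin r} (hb : b ∈ T)
    (hR : R ⊆ T.erase b) : (T \ R).card = (T.erase b \ R).card + 1 := by
  have hbR : b ∉ R := fun h => by simpa using hR h
  have h1 : T \ R = insert b (T.erase b \ R) := by
    ext j
    simp only [Finset.mem_sdiff, Finset.mem_insert, Finset.mem_erase]
    constructor
    · rintro ⟨h1, h2⟩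
      by_cases h3 : j = b
      · exact Or.inl h3
      · exact Or.inr ⟨⟨h3, h1⟩, h2⟩
    · rintro (rfl | ⟨⟨h3, h1⟩, h2⟩)
      · exact ⟨hb, hbR⟩
      · exact ⟨h1, h2⟩
  rw [h1, Finset.card_insert_of_notMem]
  simp

private theorem sdiff_insert_Dd (T R : Finset (Fin r)) (b : Fin r) :
    T \ insert b R = T.erase b \ R := by
  ext j
  simp only [Finset.mem_sdiff, Finset.mem_insert, Finset.mem_erase]
  tauto

theorem Dd_split {T : Finset (Fin r)} {b : Fin r} (hb : b ∈ T) (p q : Pts X) : Dd T p q =
    ∑ R ∈ (T.erase b).powerset, (-1 : ℚ) ^ (T.erase b \ R).card •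
      (cl (Function.update (mix R p q) b (p b)) - cl (Function.update (mix R p q) b (q b))) := by
  unfold Dd
  have h1 : T.powerset = (insert b (T.erase b)).powerset := by rw [Finset.insert_erase hb]
  rw [h1, Finset.sum_powerset_insert (Finset.notMem_erase b T), ← Finset.sum_add_distrib]
  refine Finset.sum_congr rfl fun R hR => ?_
  have hR' := Finset.mem_powerset.1 hR
  have hbR : b ∉ R := fun h => by simpa using hR' h
  rw [card_sdiff_Dd hb hR', sdiff_insert_Dd, upd_notMem_Dd hbR, upd_insert_Dd, smul_sub,
    pow_succ, mul_neg_one, neg_smul]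
  abel

private theorem env1_Dd (p : Pts X) (b : Fin r) : ∃ f : Mor (fun _ : Fin 1 => X b) X,
    ∀ (_ : 𝒯.Ok) (P : Pts (fun _ : Fin 1 => X b)), f.app P = Function.update p b (P 0) := by
  refine ⟨⟨fun j => if h : j = b then some ⟨0, by rw [h]⟩ else none, fun j => 𝒯.e _, p⟩, ?_⟩
  intro h P
  funext j
  unfold Mor.app
  by_cases hj : j = b
  · subst hj
    rw [Function.update_self]
    simp only [dif_pos]
    exact h.act_e _ _
  · rw [Function.update_of_ne hj]
    simp only [dif_neg hj]

theorem eq1_env (h : 𝒯.Ok) (p : Pts X) (b : Fin r) (g : 𝒯.G (X b)) (x y : 𝒯.Pt (X b)) :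
    cl (Function.update p b (𝒯.act _ g x)) - cl (Function.update p b (𝒯.act _ g y)) =
      (𝒯.sg _ g : ℚ) • (cl (Function.update p b x) - cl (Function.update p b y)) := by
  obtain ⟨f, hf⟩ := env1_Dd p b
  have h1 : (cl (fun _ => 𝒯.act _ g x) - cl (fun _ => 𝒯.act _ g y) -
      (𝒯.sg _ g : ℚ) • (cl (fun _ => x) - cl (fun _ => y)) : V (fun _ : Fin 1 => X b)) = 0 :=
    (Submodule.Quotient.mk_eq_zero _).2 (h.eq1 (X b) g x y)
  have h2 := congrArg (push h f) h1
  rw [map_sub, map_smul, map_sub, map_sub, map_zero, push_cl, push_cl, push_cl, push_cl,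
    hf h, hf h, hf h, hf h] at h2
  exact sub_eq_zero.1 h2

private theorem env2_Dd (p : Pts X) {b c : Fin r} (hne : b ≠ c) (hbc : X b = X c) :
    ∃ f : Mor (fun _ : Fin 2 => X b) X, ∀ (_ : 𝒯.Ok) (P : Pts (fun _ : Fin 2 => X b)),
      f.app P = Function.update (Function.update p b (P 0)) c (hbc ▸ P 1) := by
  refine ⟨⟨fun j => if h : j = b then some ⟨0, by rw [h]⟩ else
    if h' : j = c then some ⟨1, by rw [h', hbc]⟩ else none, fun j => 𝒯.e _, p⟩, ?_⟩
  intro h P
  funext j
  unfold Mor.app
  by_cases hj : j = b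
  · subst hj
    rw [Function.update_of_ne hne, Function.update_self]
    simp only [dif_pos]
    exact h.act_e _ _
  · by_cases hj' : j = c
    · subst hj'
      rw [Function.update_self]
      simp only [dif_neg hj, dif_pos]
      exact h.act_e _ _
    · rw [Function.update_of_ne hj', Function.update_of_ne hj]
      simp only [dif_neg hj, dif_neg hj']

private theorem cast_symm_Dd {l l' : 𝒯.L} (e : l = l') (y : 𝒯.Pt l') :
    (e ▸ (e.symm ▸ y : 𝒯.Pt l) : 𝒯.Pt l') = y := by
  subst e
  rfl

theorem eq2_env (h : 𝒯.Ok) (p : Pts X) {b c : Fin r} (hne : b ≠ c) (hbc : X b = X c)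
    (x x' : 𝒯.Pt (X b)) (y y' : 𝒯.Pt (X c)) :
    cl (Function.update (Function.update p b x) c y) -
      cl (Function.update (Function.update p b x) c y') -
      cl (Function.update (Function.update p b x') c y) +
      cl (Function.update (Function.update p b x') c y') =
    (-1 : ℚ) ^ 𝒯.d (X b) •
      (cl (Function.update (Function.update p b (hbc.symm ▸ y)) c (hbc ▸ x)) -
      cl (Function.update (Function.update p b (hbc.symm ▸ y')) c (hbc ▸ x)) -
      cl (Function.update (Function.update p b (hbc.symm ▸ y)) c (hbc ▸ x')) +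
      cl (Function.update (Function.update p b (hbc.symm ▸ y')) c (hbc ▸ x'))) := by
  obtain ⟨f, hf⟩ := env2_Dd p hne hbc
  obtain ⟨z, hz⟩ : ∃ z : 𝒯.Pt (X b), z = hbc.symm ▸ y := ⟨_, rfl⟩
  obtain ⟨z', hz'⟩ : ∃ z' : 𝒯.Pt (X b), z' = hbc.symm ▸ y' := ⟨_, rfl⟩
  have hy : y = hbc ▸ z := by rw [hz, cast_symm_Dd]
  have hy' : y' = hbc ▸ z' := by rw [hz', cast_symm_Dd]
  have h1 : (cl ![x, z] - cl ![x, z'] - cl ![x', z] + cl ![x', z'] -
      (-1 : ℚ) ^ 𝒯.d (X b) • (cl ![z, x] - cl ![z', x] - cl ![z, x'] + cl ![z', x']) :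
        V (fun _ : Fin 2 => X b)) = 0 :=
    (Submodule.Quotient.mk_eq_zero _).2 (h.eq2 (X b) x x' z z')
  have h2 := congrArg (push h f) h1
  rw [map_sub, map_smul, map_add, map_sub, map_sub, map_add, map_sub, map_sub, map_zero] at h2
  simp only [push_cl, hf h] at h2
  rw [← hz, ← hz', hy, hy']
  exact sub_eq_zero.1 h2

private theorem mix_upd_Dd {R : Finset (Fin r)} {b : Fin r} (p q p' q' : Pts X) (x : 𝒯.Pt (X b))
    (hp : ∀ j, j ≠ b → p j = p' j) (hq : ∀ j, j ≠ b → q j = q' j) :
    Function.update (mix R p q) b x = Function.update (mix R p' q') b x := by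
  funext j
  by_cases hj : j = b
  · subst hj
    rw [Function.update_self, Function.update_self]
  · rw [Function.update_of_ne hj, Function.update_of_ne hj]
    unfold mix
    rw [hp j hj, hq j hj]

theorem Dd_act1 (h : 𝒯.Ok) {T : Finset (Fin r)} {b : Fin r} (hb : b ∈ T) (p q : Pts X)
    (g : 𝒯.G (X b)) :
    Dd T (Function.update p b (𝒯.act _ g (p b))) (Function.update q b (𝒯.act _ g (q b))) =
      (𝒯.sg _ g : ℚ) • Dd T p q := by
  rw [Dd_split hb, Dd_split hb, Finset.smul_sum]
  refine Finset.sum_congr rfl fun R _ => ?_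
  rw [Function.update_self, Function.update_self]
  have h1 : ∀ x, Function.update (mix R (Function.update p b (𝒯.act _ g (p b)))
      (Function.update q b (𝒯.act _ g (q b)))) b x = Function.update (mix R p q) b x :=
    fun x => mix_upd_Dd _ _ _ _ _ (fun j hj => Function.update_of_ne hj _ _)
      (fun j hj => Function.update_of_ne hj _ _)
  rw [h1, h1, eq1_env h, smul_comm]

/-- automorphisms in all components in `T` -/
theorem Dd_act (h : 𝒯.Ok) {T : Finset (Fin r)} (p q : Pts X) (g : ∀ j, 𝒯.G (X j)) :
    Dd T (fun j => 𝒯.act _ (g j) (p j)) (fun j => if j ∈ T then 𝒯.act _ (g j) (q j) else q j) =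
      ((∏ j ∈ T, 𝒯.sg _ (g j) : ℤ) : ℚ) • Dd T p q := by
  have key : ∀ U : Finset (Fin r), U ⊆ T →
      Dd T (fun j => if j ∈ U then 𝒯.act _ (g j) (p j) else p j)
        (fun j => if j ∈ U then 𝒯.act _ (g j) (q j) else q j) =
      ((∏ j ∈ U, 𝒯.sg _ (g j) : ℤ) : ℚ) • Dd T p q := by
    intro U
    induction U using Finset.induction_on with
    | empty =>
      intro _
      simp
    | insert b U hbU ih =>
      intro hU
      have h1 := ih fun j hj => hU (Finset.mem_insert_of_mem hj)
      have hbT : b ∈ T := hU (Finset.mem_insert_self _ _)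
      have h2 : ∀ q : Pts X, (fun j => if j ∈ insert b U then 𝒯.act _ (g j) (q j) else q j) =
          Function.update (fun j => if j ∈ U then 𝒯.act _ (g j) (q j) else q j) b
            (𝒯.act _ (g b) ((fun j => if j ∈ U then 𝒯.act _ (g j) (q j) else q j) b)) := by
        intro q
        funext j
        by_cases hj : j = b
        · subst hj
          rw [Function.update_self]
          simp only [Finset.mem_insert_self, if_true, if_neg hbU]
        · rw [Function.update_of_ne hj]
          by_cases hjU : j ∈ U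
          · rw [if_pos (Finset.mem_insert_of_mem hjU), if_pos hjU]
          · rw [if_neg, if_neg hjU]
            rw [Finset.mem_insert]
            tauto
      rw [h2 p, h2 q, Dd_act1 h hbT, h1, smul_smul, Finset.prod_insert hbU]
      push_cast
      rfl
  rw [← key T (Finset.Subset.refl T)]
  refine Dd_congr fun j hj => ?_
  rw [if_pos hj]

/-- the points with exchanged components -/
def perm (π : Equiv.Perm (Fin r)) (hπ : ∀ j, X (π j) = X j) (p : Pts X) : Pts X :=
  fun j => hπ j ▸ p (π j)

private theorem cast_eq_Dd {i j k : Fin r} (p : Pts X) (e : i = j) (h1 : X i = X k)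
    (h2 : X j = X k) : (h1 ▸ p i : 𝒯.Pt (X k)) = h2 ▸ p j := by
  subst e
  rfl

private theorem split2_Dd {T : Finset (Fin r)} {b c : Fin r} (hb : b ∈ T) (hc : c ∈ T)
    (hne : b ≠ c) (p q : Pts X) : Dd T p q =
    ∑ R ∈ ((T.erase b).erase c).powerset, (-1 : ℚ) ^ ((T.erase b).erase c \ R).card •
      (cl (Function.update (Function.update (mix R p q) b (p b)) c (p c)) -
       cl (Function.update (Function.update (mix R p q) b (p b)) c (q c)) -
       cl (Function.update (Function.update (mix R p q) b (q b)) c (p c)) +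
       cl (Function.update (Function.update (mix R p q) b (q b)) c (q c))) := by
  rw [Dd_split hb]
  have hcT : c ∈ T.erase b := Finset.mem_erase.2 ⟨hne.symm, hc⟩
  have h1 : (T.erase b).powerset = (insert c ((T.erase b).erase c)).powerset := by
    rw [Finset.insert_erase hcT]
  rw [h1, Finset.sum_powerset_insert (Finset.notMem_erase c _), ← Finset.sum_add_distrib]
  refine Finset.sum_congr rfl fun R hR => ?_
  have hR' := Finset.mem_powerset.1 hR
  have hcR : c ∉ R := fun h => by simpa using hR' h
  have h2 : ∀ x, Function.update (Function.update (mix R p q) b x) c (q c) =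
      Function.update (mix R p q) b x := by
    intro x
    rw [Function.update_comm hne, upd_notMem_Dd hcR]
  have h3 : ∀ x, Function.update (Function.update (mix R p q) b x) c (p c) =
      Function.update (mix (insert c R) p q) b x := by
    intro x
    rw [Function.update_comm hne, upd_insert_Dd]
  rw [card_sdiff_Dd hcT hR', sdiff_insert_Dd, h2, h2, h3, h3, pow_succ, mul_neg_one, neg_smul]
  simp only [smul_sub, smul_add]
  abel

theorem Dd_swap (h : 𝒯.Ok) {T : Finset (Fin r)} {b c : Fin r} (hb : b ∈ T) (hc : c ∈ T)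
    (hne : b ≠ c) (hπ : ∀ j, X (Equiv.swap b c j) = X j) (p q : Pts X) :
    Dd T (perm (Equiv.swap b c) hπ p) (perm (Equiv.swap b c) hπ q) =
      (-1 : ℚ) ^ 𝒯.d (X b) • Dd T p q := by
  have hbc : X b = X c := by
    have := hπ c
    rwa [Equiv.swap_apply_right] at this
  have hpb : ∀ p : Pts X, perm (Equiv.swap b c) hπ p b = hbc.symm ▸ p c := fun p =>
    cast_eq_Dd p (Equiv.swap_apply_left b c) (hπ b) hbc.symm
  have hpc : ∀ p : Pts X, perm (Equiv.swap b c) hπ p c = hbc ▸ p b := fun p =>
    cast_eq_Dd p (Equiv.swap_apply_right b c) (hπ c) hbc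
  have hpj : ∀ (p : Pts X) (j : Fin r), j ≠ b → j ≠ c → perm (Equiv.swap b c) hπ p j = p j :=
    fun p j h1 h2 => cast_eq_Dd p (Equiv.swap_apply_of_ne_of_ne h1 h2) (hπ j) rfl
  rw [split2_Dd hb hc hne, split2_Dd hb hc hne, Finset.smul_sum]
  refine Finset.sum_congr rfl fun R _ => ?_
  have h1 : ∀ x y, Function.update (Function.update (mix R (perm (Equiv.swap b c) hπ p)
      (perm (Equiv.swap b c) hπ q)) b x) c y =
      Function.update (Function.update (mix R p q) b x) c y := by
    intro x y
    funext j
    by_cases hj : j = c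
    · subst hj
      rw [Function.update_self, Function.update_self]
    · rw [Function.update_of_ne hj, Function.update_of_ne hj]
      by_cases hj' : j = b
      · subst hj'
        rw [Function.update_self, Function.update_self]
      · rw [Function.update_of_ne hj', Function.update_of_ne hj']
        unfold mix
        rw [hpj p j hj' hj, hpj q j hj' hj]
  simp only [h1]
  rw [eq2_env h _ hne hbc, smul_comm]
  congr 2
  simp only [hpb, hpc, cast_symm_Dd]
  abel

end Pool.Agent.VPR
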