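import Pool.Agent.VPR.Src

/-!
# The conditions 1-4
-/

set_option autoImplicit false

noncomputable section

namespace Pool.Agent.VPR

open scoped Classical

variable {𝒯 : Thy} {r r' : ℕ} {X : Fin r → 𝒯.L} {X' : Fin r' → 𝒯.L}

/-! ### The conditions 1 and 2 -/

/-- the projection as a morphism -/
private def projM (h : 𝒯.Ok) (X : Fin r → 𝒯.L) {t : ℕ} (s : Fin t → Fin r) :
    Mor X fun j => X (s j) where
  src j := some ⟨s j, rfl⟩
  g j := 𝒯.e (X (s j))
  o j := (h.ne (X (s j))).some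

private theorem projM_app (h : 𝒯.Ok) {t : ℕ} (s : Fin t → Fin r) (P : Pts X) :
    (projM h X s).app P = proj X s P := by
  funext j
  exact h.act_e _ _

theorem proj_mem (h : 𝒯.Ok) {t : ℕ} (s : Fin t → Fin r) {z : Pts X →₀ ℚ} (hz : z ∈ 𝒯.Rat X) :
    Finsupp.lmapDomain ℚ ℚ (proj X s) z ∈ 𝒯.Rat fun j => X (s j) := by
  have h1 := h.push X _ (projM h X s) hz
  rwa [Submodule.mem_comap, show (projM h X s).app = proj X s from
    funext fun P => projM_app h s P] at h1

theorem Fil_ge (h : 𝒯.Ok) (ν : ℕ) : 𝒯.Rat X ≤ Fil X ν := fun _ hz _ s _ _ => proj_mem h s hz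

theorem Fil_anti (ν : ℕ) : Fil X (ν + 1) ≤ Fil X ν :=
  fun _ hz t s hs hd => hz t s hs (Nat.lt_succ_of_lt hd)

theorem Fil_zero : Fil X 0 = ⊤ := by
  rw [eq_top_iff]
  intro z _ t s _ hd
  exact absurd hd (Nat.not_lt_zero _)

theorem Fil_top (h : 𝒯.Ok) : Fil X (dim X + 1) = 𝒯.Rat X := by
  refine le_antisymm (fun z hz => ?_) (Fil_ge h _)
  have h1 := hz r id Function.injective_id (Nat.lt_succ_self _)
  have h2 : (proj X id : Pts X → Pts fun j => X (id j)) = id := rfl
  rw [h2, Finsupp.lmapDomain_apply, Finsupp.mapDomain_id] at h1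
  exact h1

private theorem sum_map {A B : Type} (f : A → B) (z : A →₀ ℚ) :
    ((Finsupp.lmapDomain ℚ ℚ f z).sum fun _ c => c) = z.sum fun _ c => c := by
  rw [Finsupp.lmapDomain_apply, Finsupp.sum_mapDomain_index (fun _ => rfl) fun _ _ _ => rfl]

/-- a cycle on a point -/
private theorem zero_of_subsingleton {A : Type} [Subsingleton A] (z : A →₀ ℚ)
    (hz : (z.sum fun _ c => c) = 0) : z = 0 := by
  ext a
  have h1 : z = Finsupp.single a (z a) := by
    ext b
    rw [Subsingleton.elim b a, Finsupp.single_eq_same]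
  rw [h1, Finsupp.sum_single_index rfl] at hz
  rw [hz]
  rfl

private theorem dim_ge (h : 𝒯.Ok) {t : ℕ} (Y : Fin t → 𝒯.L) : t ≤ dim Y := by
  unfold dim dimT
  calc t = ∑ _j : Fin t, 1 := by simp
    _ ≤ ∑ j, 𝒯.d (Y j) := Finset.sum_le_sum fun j _ => h.d_pos _

theorem Fil_one (h : 𝒯.Ok) {z : Pts X →₀ ℚ} : z ∈ Fil X 1 ↔ (z.sum fun _ c => c) = 0 := by
  constructor
  · intro hz
    have h1 := hz 0 (fun j => j.elim0) (fun j => j.elim0) (by
      unfold dim dimT
      simp)
    have h2 := h.deg _ _ h1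
    rwa [sum_map] at h2
  · intro hz t s _ hd
    have ht : t = 0 := by
      have := dim_ge h fun j => X (s j)
      omega
    subst ht
    have h1 : Finsupp.lmapDomain ℚ ℚ (proj X s) z = 0 :=
      zero_of_subsingleton _ (by rw [sum_map]; exact hz)
    rw [h1]
    exact Submodule.zero_mem _

/-- the projection to one factor -/
def fac (X : Fin r → 𝒯.L) (j : Fin r) (P : Pts X) : Pts fun _ : Fin 1 => X j := fun _ => P j

theorem Fil_two (h : 𝒯.Ok) {z : Pts X →₀ ℚ} : z ∈ Fil X 2 ↔ (z.sum fun _ c => c) = 0 ∧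
    ∀ j, 𝒯.d (X j) = 1 → Finsupp.lmapDomain ℚ ℚ (fac X j) z ∈ 𝒯.Rat fun _ : Fin 1 => X j := by
  constructor
  · intro hz
    refine ⟨(Fil_one h).1 (Fil_anti 1 hz), fun j hj => ?_⟩
    refine hz 1 (fun _ => j) (Function.injective_of_subsingleton _) ?_
    unfold dim dimT
    simp [hj]
  · rintro ⟨hz, hj⟩ t s hs hd
    have ht := dim_ge h fun j => X (s j)
    have ht2 : t = 0 ∨ t = 1 := by omega
    rcases ht2 with rfl | rfl
    · exact (Fil_one h).2 hz 0 s hs (by
        unfold dim dimT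
        simp)
    · obtain ⟨j, rfl⟩ : ∃ j, s = fun _ => j := ⟨s 0, funext fun i => by rw [Subsingleton.elim i 0]⟩
      refine hj j ?_
      unfold dim dimT at hd
      simp only [Finset.univ_unique, Finset.sum_const, Finset.card_singleton, one_smul] at hd
      have := h.d_pos (X j)
      omega

/-! ### The sources -/

/-- the factors on which the components in `T'` depend -/
private def srcT (f : Mor X X') (T' : Finset (Fin r')) : Finset (Fin r) :=
  Finset.univ.filter fun i => ∃ j ∈ T', (f.src j).map Subtype.val = some i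

private theorem mem_srcT {f : Mor X X'} {T' : Finset (Fin r')} {i : Fin r} :
    i ∈ srcT f T' ↔ ∃ j ∈ T', (f.src j).map Subtype.val = some i := by
  unfold srcT
  simp

private theorem label {f : Mor X X'} {j : Fin r'} {i : Fin r}
    (h : (f.src j).map Subtype.val = some i) : X i = X' j := by
  cases hs : f.src j with
  | none =>
    rw [hs] at h
    cases h
  | some a =>
    rw [hs, Option.map_some, Option.some.injEq] at h
    rw [← h]
    exact a.2

private theorem exists_sec [Nonempty (Fin r')] (f : Mor X X') (T' : Finset (Fin r')) :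
    ∃ c : Fin r → Fin r', (∀ i ∈ srcT f T', c i ∈ T' ∧ (f.src (c i)).map Subtype.val = some i) ∧
      Set.InjOn c (srcT f T') := by
  have h1 : ∀ i : Fin r, i ∈ srcT f T' → ∃ j, j ∈ T' ∧ (f.src j).map Subtype.val = some i :=
    fun i hi => by
      obtain ⟨j, hj, h2⟩ := mem_srcT.1 hi
      exact ⟨j, hj, h2⟩
  choose! c hc using h1
  refine ⟨c, hc, fun i hi i' hi' h2 => ?_⟩
  have h3 := (hc i hi).2
  rw [h2, (hc i' hi').2] at h3
  exact (Option.some.inj h3).symm

private theorem srcT_empty (hr : ¬ Nonempty (Fin r')) (f : Mor X X') (T' : Finset (Fin r')) :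
    srcT f T' = ∅ := by
  rw [Finset.eq_empty_iff_forall_notMem]
  intro i hi
  obtain ⟨j, -, -⟩ := mem_srcT.1 hi
  exact hr ⟨j⟩

private theorem dim_srcT (f : Mor X X') (T' : Finset (Fin r')) :
    dimT X (srcT f T') ≤ dimT X' T' := by
  by_cases hr : Nonempty (Fin r')
  swap
  · rw [srcT_empty hr]
    exact Nat.zero_le _
  obtain ⟨c, hc, hinj⟩ := exists_sec f T'
  unfold dimT
  calc ∑ i ∈ srcT f T', 𝒯.d (X i) = ∑ i ∈ srcT f T', 𝒯.d (X' (c i)) :=
        Finset.sum_congr rfl fun i hi => by rw [label (hc i hi).2]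
    _ = ∑ j ∈ (srcT f T').image c, 𝒯.d (X' j) :=
        (Finset.sum_image (f := fun j => 𝒯.d (X' j)) hinj).symm
    _ ≤ ∑ j ∈ T', 𝒯.d (X' j) := Finset.sum_le_sum_of_subset (by
        intro j hj
        obtain ⟨i, hi, rfl⟩ := Finset.mem_image.1 hj
        exact (hc i hi).1)

private theorem dimT_strict (h : 𝒯.Ok) {S U : Finset (Fin r)} (hSU : S ⊆ U)
    (hd : dimT X U ≤ dimT X S) : S = U := by
  by_contra hne
  have hss : S ⊂ U := lt_of_le_of_ne hSU hne
  obtain ⟨b, hb, hbS⟩ := Finset.exists_of_ssubset hss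
  have h1 : dimT X S < dimT X U := by
    unfold dimT
    exact Finset.sum_lt_sum_of_subset hSU hb hbS (h.d_pos _) fun _ _ _ => Nat.zero_le _
  omega

private theorem pull_of_dim (h : 𝒯.Ok) {f : Mor X X'} {T' : Finset (Fin r')}
    {S : Finset (Fin r)} (hS : S ⊆ srcT f T') (hd : dimT X' T' ≤ dimT X S) : f.Pull T' S := by
  by_cases hr : Nonempty (Fin r')
  swap
  · rw [srcT_empty hr, Finset.subset_empty] at hS
    exact ⟨fun j => absurd ⟨j⟩ hr, fun j => absurd ⟨j⟩ hr, fun i hi => by simp [hS] at hi⟩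
  obtain ⟨c, hc, hinj⟩ := exists_sec f T'
  have h1 := dim_srcT f T'
  have hSU : S = srcT f T' := dimT_strict h hS (h1.trans hd)
  have h2 : (srcT f T').image c = T' := by
    refine dimT_strict h (X := X') (by
      intro j hj
      obtain ⟨i, hi, rfl⟩ := Finset.mem_image.1 hj
      exact (hc i hi).1) ?_
    have h3 : dimT X' ((srcT f T').image c) = dimT X (srcT f T') := by
      unfold dimT
      rw [Finset.sum_image hinj]
      exact Finset.sum_congr rfl fun i hi => by rw [label (hc i hi).2]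
    rw [h3, ← hSU]
    exact hd
  have h3 : ∀ j ∈ T', ∃ i ∈ srcT f T', c i = j := by
    intro j hj
    rw [← h2] at hj
    obtain ⟨i, hi, h4⟩ := Finset.mem_image.1 hj
    exact ⟨i, hi, h4⟩
  refine ⟨fun j hj => ?_, fun i hi j hj hij => ?_, fun i hi => ?_⟩
  · obtain ⟨i, hi, rfl⟩ := h3 j hj
    exact ⟨i, hSU ▸ hi, (hc i hi).2⟩
  · obtain ⟨a, ha, rfl⟩ := h3 i hi
    obtain ⟨b, hb, rfl⟩ := h3 j hj
    rw [(hc a ha).2, (hc b hb).2] at hij
    rw [Option.some.inj hij]
  · rw [hSU] at hi
    exact ⟨c i, (hc i hi).1, (hc i hi).2⟩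

private theorem sub_of_pull {f : Mor X X'} {T' : Finset (Fin r')} {S : Finset (Fin r)}
    (hf : f.Pull T' S) : S ⊆ srcT f T' := fun i hi => mem_srcT.2 (hf.2.2 i hi)

/-- the components with numbers in `T'` depend only on the sources -/
private theorem app_mix (f : Mor X X') (T' : Finset (Fin r')) (o : Pts X) (o' : Pts X')
    (P : Pts X) : mix T' (f.app (mix (srcT f T') P o)) o' = mix T' (f.app P) o' := by
  funext j
  unfold mix
  by_cases hj : j ∈ T'
  · rw [if_pos hj, if_pos hj]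
    unfold Mor.app
    cases hs : f.src j with
    | none => rfl
    | some a =>
      have ha : a.1 ∈ srcT f T' := mem_srcT.2 ⟨j, hj, by rw [hs]; rfl⟩
      simp only [if_pos ha]
  · rw [if_neg hj, if_neg hj]

private theorem L_mix (h : 𝒯.Ok) (f : Mor X X') (T' : Finset (Fin r')) (o : Pts X)
    (o' : Pts X') (P : Pts X) :
    ((push h (prM T' o')).comp (push h f)) (cl (mix (srcT f T') P o)) =
      ((push h (prM T' o')).comp (push h f)) (cl P) := by
  rw [LinearMap.comp_apply, LinearMap.comp_apply, push_cl, push_cl, push_cl, push_cl,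
    prM_app h, prM_app h, app_mix]

private theorem L_prM (h : 𝒯.Ok) (f : Mor X X') (T' : Finset (Fin r')) (o : Pts X)
    (o' : Pts X') (y : V X) :
    ((push h (prM T' o')).comp (push h f)) y =
      ((push h (prM T' o')).comp (push h f)) (push h (prM (srcT f T') o) y) := by
  have h1 : (push h (prM T' o')).comp (push h f) =
      ((push h (prM T' o')).comp (push h f)).comp (push h (prM (srcT f T') o)) := by
    refine V_hom_ext fun P => ?_
    rw [LinearMap.comp_apply _ (push h (prM (srcT f T') o)), push_cl h (prM (srcT f T') o),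
      prM_app h, L_mix]
  exact LinearMap.congr_fun h1 y

/-! ### The conditions 3 and 4 -/

theorem Fil_map (h : 𝒯.Ok) (f : Mor X X') {ν : ℕ} {z : Pts X →₀ ℚ} (hz : z ∈ Fil X ν) :
    Finsupp.lmapDomain ℚ ℚ f.app z ∈ Fil X' ν := by
  obtain ⟨o⟩ : Nonempty (Pts X) := ⟨fun j => (h.ne (X j)).some⟩
  obtain ⟨o'⟩ : Nonempty (Pts X') := ⟨fun j => (h.ne (X' j)).some⟩
  refine (mem_Fil h o').2 fun R hR => ?_
  rw [← push_mk h f]
  have h1 := L_prM h f R o o' (Submodule.Quotient.mk z)
  rw [(mem_Fil h o).1 hz _ ((dim_srcT f R).trans_lt hR), map_zero] at h1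
  exact h1

private theorem mk_pushM (h : 𝒯.Ok) (γ : Mor X X' →₀ ℚ) (z : Pts X →₀ ℚ) :
    (Submodule.Quotient.mk (pushM γ z) : V X') =
      ∑ f ∈ γ.support, γ f • push h f (Submodule.Quotient.mk z) := by
  have h1 : pushM γ z = ∑ f ∈ γ.support, γ f • Finsupp.lmapDomain ℚ ℚ f.app z := by
    rw [pushM, Finsupp.sum, LinearMap.sum_apply]
    exact Finset.sum_congr rfl fun f _ => LinearMap.smul_apply _ _ _
  rw [h1, ← Submodule.mkQ_apply, map_sum]
  refine Finset.sum_congr rfl fun f _ => ?_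
  rw [map_smul]
  rfl

theorem Fil_mapM (h : 𝒯.Ok) (γ : Mor X X' →₀ ℚ) (ν : ℕ) :
    (Fil X ν).map (pushM γ) ≤ Fil X' ν := by
  rw [Submodule.map_le_iff_le_comap]
  intro z hz
  rw [Submodule.mem_comap, pushM, Finsupp.sum, LinearMap.sum_apply]
  exact Submodule.sum_mem _ fun f _ => Submodule.smul_mem _ _ (Fil_map h f hz)

private theorem graded (h : 𝒯.Ok) {γ : Mor X X' →₀ ℚ} {ν : ℕ} (hγ : KillsForms γ ν)
    {T' : Finset (Fin r')} (hT : dimT X' T' = ν) {S : Finset (Fin r)} (hS : ν ≤ dimT X S)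
    (o : Pts X) (o' : Pts X') (y : V X) :
    ∑ f ∈ γ.support, γ f • ((push h (prM T' o')).comp (push h f)) (qM h S o y) = 0 := by
  have h1 : (∑ f ∈ γ.support, γ f • ((push h (prM T' o')).comp (push h f)).comp (qM h S o)) =
      0 := by
    refine V_hom_ext fun P => ?_
    rw [LinearMap.zero_apply, LinearMap.sum_apply]
    have h2 : ∀ f ∈ γ.support, f ∉ γ.support.filter (fun f => f.Pull T' S) →
        (γ f • ((push h (prM T' o')).comp (push h f)).comp (qM h S o)) (cl P) = 0 := by
      intro f hf hf2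
      have h3 : ¬ S ⊆ srcT f T' := fun h4 =>
        hf2 (Finset.mem_filter.2 ⟨hf, pull_of_dim h h4 (by rw [hT]; exact hS)⟩)
      rw [LinearMap.smul_apply, LinearMap.comp_apply,
        qM_kill h (fun P => L_mix h f T' o o' P) h3, smul_zero]
    rw [← Finset.sum_subset (Finset.filter_subset _ _) h2]
    by_cases hex : ∃ f₀, f₀ ∈ γ.support.filter (fun f => f.Pull T' S)
    · obtain ⟨f₀, hf₀⟩ := hex
      have hp₀ := (Finset.mem_filter.1 hf₀).2
      have h3 : ∀ f ∈ γ.support.filter (fun f => f.Pull T' S),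
          (γ f • ((push h (prM T' o')).comp (push h f)).comp (qM h S o)) (cl P) =
          (γ f * (f.coef T' : ℚ)) • ((sgn (wt X') T' Fin.val f₀.num : ℤ) : ℚ) •
            Dd T' (f₀.pure.app P) (mix T' (f₀.pure.app o) o') := by
        intro f hf
        have hp := (Finset.mem_filter.1 hf).2
        rw [LinearMap.smul_apply, LinearMap.comp_apply, LinearMap.comp_apply,
          Dd_src h hp, Dd_coef h hp hp₀, Int.cast_mul, smul_smul, smul_smul, mul_assoc]
      rw [Finset.sum_congr rfl h3, ← Finset.sum_smul, hγ T' hT S, zero_smul]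
    · refine Finset.sum_eq_zero fun f hf => absurd ⟨f, hf⟩ hex
  have h4 := LinearMap.congr_fun h1 y
  rw [LinearMap.sum_apply] at h4
  exact h4

theorem Fil_grad (h : 𝒯.Ok) (γ : Mor X X' →₀ ℚ) (ν : ℕ) (hγ : KillsForms γ ν) :
    (Fil X ν).map (pushM γ) ≤ Fil X' (ν + 1) := by
  obtain ⟨o⟩ : Nonempty (Pts X) := ⟨fun j => (h.ne (X j)).some⟩
  obtain ⟨o'⟩ : Nonempty (Pts X') := ⟨fun j => (h.ne (X' j)).some⟩
  rw [Submodule.map_le_iff_le_comap]
  intro z hz
  rw [Submodule.mem_comap]
  refine (mem_Fil h o').2 fun R hR => ?_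
  rw [mk_pushM h, map_sum]
  rcases Nat.lt_or_ge (dimT X' R) ν with hlt | hge
  · refine Finset.sum_eq_zero fun f _ => ?_
    rw [map_smul, push_mk, (mem_Fil h o').1 (Fil_map h f hz) R hlt, smul_zero]
  · have hR' : dimT X' R = ν := by omega
    have h1 : (Submodule.Quotient.mk z : V X) =
        ∑ S : Finset (Fin r), qM h S o (Submodule.Quotient.mk z) := by
      have h2 := LinearMap.congr_fun (sum_qM h o) (Submodule.Quotient.mk z)
      rw [LinearMap.sum_apply] at h2
      exact h2.symm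
    have h3 : ∀ f ∈ γ.support, push h (prM R o') (γ f • push h f (Submodule.Quotient.mk z)) =
        ∑ S : Finset (Fin r), γ f • ((push h (prM R o')).comp (push h f))
          (qM h S o (Submodule.Quotient.mk z)) := by
      intro f _
      rw [map_smul, ← Finset.smul_sum, ← map_sum, ← h1]
      rfl
    rw [Finset.sum_congr rfl h3, Finset.sum_comm]
    refine Finset.sum_eq_zero fun S _ => ?_
    rcases Nat.lt_or_ge (dimT X S) ν with hlt | hge'
    · refine Finset.sum_eq_zero fun f _ => ?_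
      rw [qM_Fil h o hz hlt, map_zero, smul_zero]
    · exact graded h hγ hR' hge' o o' _

end Pool.Agent.VPR
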