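import Pool.Agent.VPR.Thy

/-!
# The sign of a permutation with weights

`sgn w T κ μ` is the product of the weights `w i j` for all pairs `i`, `j` in `T` with `κ i < κ j` and
`μ j < μ i`.

* `sgn_mul`: both sides are products over the unordered pairs `{i, j}`: order the pair such that
  `κ i < κ j`. On the left we have `w i j` if `μ j < μ i`, otherwise `1`. On the right we have
  `w i j` if `l j < l i` and (for the pair ordered by `l`) `w i j` if `μ` reverses the order given by
  `l`. Check the four cases with `w i j * w i j = 1`. (To pass to unordered pairs: for every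
  function `g` with `g i i = 1` we have
  `∏ i ∈ T, ∏ j ∈ T, g i j = ∏ i ∈ T, ∏ j ∈ T, if κ i < κ j then g i j * g j i else 1`,
  by `Finset.prod_comm` and the trichotomy, `κ` is injective on `T`.)
* `sgn_map`: `Finset.prod_image`.
* `sgn_swap`: let `b < c` (otherwise exchange `b` and `c`; `w` is symmetric). The pairs `i < j` in `T`
  which are reversed are `(b, c)`, `(b, j)` for `b < j < c` and `(i, c)` for `b < i < c`, and
  `w b i * w i c = 1` by `hbc`.
-/

set_option autoImplicit false

namespace Pool.Agent.VPR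

open scoped Classical

variable {I J : Type}

theorem sgn_congr {w w' : I → I → ℤ} {T : Finset I} {κ κ' μ μ' : I → ℕ}
    (hw : ∀ i ∈ T, ∀ j ∈ T, w i j = w' i j) (hκ : ∀ i ∈ T, κ i = κ' i)
    (hμ : ∀ i ∈ T, μ i = μ' i) : sgn w T κ μ = sgn w' T κ' μ' := by
  unfold sgn
  refine Finset.prod_congr rfl fun i hi => Finset.prod_congr rfl fun j hj => ?_
  rw [hw i hi j hj, hκ i hi, hκ j hj, hμ i hi, hμ j hj]

theorem sgn_self (w : I → I → ℤ) (T : Finset I) (κ : I → ℕ) : sgn w T κ κ = 1 := by
  unfold sgn
  refine Finset.prod_eq_one fun i _ => Finset.prod_eq_one fun j _ => if_neg ?_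
  rintro ⟨h1, h2⟩
  exact lt_asymm h1 h2

/-- products over ordered pairs as products over unordered pairs -/
private theorem Sgn_pair {T : Finset I} {m : I → ℕ} (hm : Set.InjOn m T) (g : I → I → ℤ)
    (hg : ∀ i, g i i = 1) : (∏ i ∈ T, ∏ j ∈ T, g i j) =
      ∏ i ∈ T, ∏ j ∈ T, if m i < m j then g i j * g j i else 1 := by
  have h1 : (∏ i ∈ T, ∏ j ∈ T, if m i < m j then g i j * g j i else 1) =
      (∏ i ∈ T, ∏ j ∈ T, if m i < m j then g i j else 1) *
        ∏ i ∈ T, ∏ j ∈ T, if m i < m j then g j i else 1 := by
    rw [← Finset.prod_mul_distrib]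
    refine Finset.prod_congr rfl fun i _ => ?_
    rw [← Finset.prod_mul_distrib]
    refine Finset.prod_congr rfl fun j _ => ?_
    split_ifs
    · rfl
    · rw [one_mul]
  have h2 : (∏ i ∈ T, ∏ j ∈ T, if m i < m j then g j i else 1) =
      ∏ i ∈ T, ∏ j ∈ T, if m j < m i then g i j else 1 := Finset.prod_comm
  rw [h1, h2, ← Finset.prod_mul_distrib]
  refine Finset.prod_congr rfl fun i hi => ?_
  rw [← Finset.prod_mul_distrib]
  refine Finset.prod_congr rfl fun j hj => ?_
  rcases lt_trichotomy (m i) (m j) with h | h | h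
  · rw [if_pos h, if_neg (lt_asymm h), mul_one]
  · have he : i = j := hm hi hj h
    subst he
    rw [if_neg (lt_irrefl _), hg, one_mul]
  · rw [if_neg (lt_asymm h), if_pos h, one_mul]

theorem sgn_mul {w : I → I → ℤ} (hw : ∀ i j, w i j = w j i) (hw2 : ∀ i j, w i j * w i j = 1)
    {T : Finset I} {κ l μ : I → ℕ} (hκ : Set.InjOn κ T) (hl : Set.InjOn l T)
    (hμ : Set.InjOn μ T) : sgn w T κ μ = sgn w T κ l * sgn w T l μ := by
  have h1 : sgn w T κ l * sgn w T l μ = ∏ i ∈ T, ∏ j ∈ T,
      (if κ i < κ j ∧ l j < l i then w i j else 1) *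
        if l i < l j ∧ μ j < μ i then w i j else 1 := by
    unfold sgn
    rw [← Finset.prod_mul_distrib]
    exact Finset.prod_congr rfl fun i _ => Finset.prod_mul_distrib.symm
  rw [h1, Sgn_pair hκ _ fun i => by simp]
  unfold sgn
  rw [Sgn_pair hκ _ fun i => by simp]
  refine Finset.prod_congr rfl fun i hi => Finset.prod_congr rfl fun j hj => ?_
  by_cases hij : κ i < κ j
  · rw [if_pos hij, if_pos hij]
    have hji : ¬ κ j < κ i := lt_asymm hij
    have hne : i ≠ j := by
      rintro rfl
      exact lt_irrefl _ hij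
    simp only [hij, hji, true_and, false_and, if_false, mul_one, one_mul]
    have hw' := hw2 i j
    rcases lt_trichotomy (l i) (l j) with h | h | h
    · simp only [h, lt_asymm h, if_false, false_and, true_and, one_mul, mul_one]
    · exact absurd (hl hi hj h) hne
    · rcases lt_trichotomy (μ i) (μ j) with h' | h' | h'
      · simp only [h, lt_asymm h, h', lt_asymm h', if_false, if_true, and_self, mul_one]
        rw [← hw i j, hw']
      · exact absurd (hμ hi hj h') hne
      · simp only [h, lt_asymm h, h', lt_asymm h', if_false, if_true, false_and, and_false,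
          mul_one]
  · rw [if_neg hij, if_neg hij]

theorem sgn_map {w : I → I → ℤ} {w' : J → J → ℤ} {T : Finset I} {T' : Finset J} {π : I → J}
    (hπ : Set.InjOn π T) (hT : T.image π = T')
    (hw : ∀ i ∈ T, ∀ j ∈ T, w i j = w' (π i) (π j)) (κ μ : J → ℕ) :
    sgn w T (fun i => κ (π i)) (fun i => μ (π i)) = sgn w' T' κ μ := by
  unfold sgn
  rw [← hT, Finset.prod_image hπ]
  refine Finset.prod_congr rfl fun i hi => ?_
  rw [Finset.prod_image hπ]
  refine Finset.prod_congr rfl fun j hj => ?_
  rw [hw i hi j hj]

theorem sgn_sq {w : I → I → ℤ} (hw2 : ∀ i j, w i j * w i j = 1) (T : Finset I) (κ μ : I → ℕ) :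
    sgn w T κ μ * sgn w T κ μ = 1 := by
  unfold sgn
  rw [← Finset.prod_mul_distrib]
  refine Finset.prod_eq_one fun i _ => ?_
  rw [← Finset.prod_mul_distrib]
  refine Finset.prod_eq_one fun j _ => ?_
  split_ifs
  · exact hw2 i j
  · exact one_mul 1

private theorem Sgn_swap_lt {r : ℕ} {w : Fin r → Fin r → ℤ} (hw : ∀ i j, w i j = w j i)
    (hw2 : ∀ i j, w i j * w i j = 1) {T : Finset (Fin r)} {b c : Fin r} (hb : b ∈ T) (hc : c ∈ T)
    (hlt : b < c) (hbc : ∀ i, w b i = w c i) :
    sgn w T Fin.val (fun i => (Equiv.swap b c i : ℕ)) = w b c := by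
  have hA : (∏ i ∈ T, ∏ j ∈ T, if i = b then (if j = c then w b c else 1) else 1) = w b c := by
    rw [Finset.prod_eq_single b]
    · simp [hc]
    · intro i _ hi
      exact Finset.prod_eq_one fun j _ => if_neg hi
    · intro h
      exact absurd hb h
  have hB : (∏ i ∈ T, ∏ j ∈ T, if i = b then (if b < j ∧ j < c then w b j else 1) else 1) =
      ∏ j ∈ T, if b < j ∧ j < c then w b j else 1 := by
    rw [Finset.prod_eq_single b]
    · simp
    · intro i _ hi
      exact Finset.prod_eq_one fun j _ => if_neg hi
    · intro h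
      exact absurd hb h
  have hC : (∏ i ∈ T, ∏ j ∈ T, if j = c then (if b < i ∧ i < c then w i c else 1) else 1) =
      ∏ i ∈ T, if b < i ∧ i < c then w i c else 1 := by
    refine Finset.prod_congr rfl fun i _ => ?_
    rw [Finset.prod_ite_eq' T c]
    simp [hc]
  have hBC : (∏ j ∈ T, if b < j ∧ j < c then w b j else 1) *
      (∏ i ∈ T, if b < i ∧ i < c then w i c else 1) = 1 := by
    rw [← Finset.prod_mul_distrib]
    refine Finset.prod_eq_one fun i _ => ?_
    split_ifs
    · rw [hw i c, ← hbc i, hw2]
    · exact one_mul 1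
  have h : sgn w T Fin.val (fun i => (Equiv.swap b c i : ℕ)) = ∏ i ∈ T, ∏ j ∈ T,
      (if i = b then (if j = c then w b c else 1) else 1) *
        ((if i = b then (if b < j ∧ j < c then w b j else 1) else 1) *
          if j = c then (if b < i ∧ i < c then w i c else 1) else 1) := by
    unfold sgn
    refine Finset.prod_congr rfl fun i _ => Finset.prod_congr rfl fun j _ => ?_
    have hv : (b : ℕ) < c := hlt
    simp only [Equiv.swap_apply_def, Fin.lt_def]
    by_cases hib : i = b
    · subst hib
      by_cases hjc : j = c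
      · subst hjc
        have h1 : ¬ j = i := fun h => by subst h; omega
        simp [h1, hv]
      · by_cases hjb : j = i
        · subst hjb
          simp [hjc]
        · simp [hjb, hjc]
    · by_cases hjc : j = c
      · subst hjc
        by_cases hic : i = j
        · subst hic
          simp [hib]
        · have h1 : ¬ j = b := fun h => by subst h; omega
          simp only [hib, h1, hic, if_false, if_true, one_mul]
          by_cases h2 : (b : ℕ) < i ∧ (i : ℕ) < j
          · rw [if_pos ⟨h2.2, h2.1⟩, if_pos h2]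
          · rw [if_neg fun h => h2 ⟨h.2, h.1⟩, if_neg h2]
      · simp only [hib, hjc, if_false, one_mul]
        by_cases hic : i = c
        · subst hic
          by_cases hjb : j = b
          · subst hjb
            rw [if_neg]
            rintro ⟨h1, _⟩
            omega
          · rw [if_neg]
            rintro ⟨h1, h2⟩
            simp only [hjb, if_false, if_true] at h2
            omega
        · by_cases hjb : j = b
          · subst hjb
            rw [if_neg]
            rintro ⟨h1, h2⟩
            simp only [hic, if_false, if_true] at h2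
            omega
          · rw [if_neg]
            rintro ⟨h1, h2⟩
            simp only [hic, hjb, if_false] at h2
            omega
  rw [h]
  simp only [Finset.prod_mul_distrib]
  rw [hA, hB, hC, hBC, mul_one]

theorem sgn_swap {r : ℕ} {w : Fin r → Fin r → ℤ} (hw : ∀ i j, w i j = w j i)
    (hw2 : ∀ i j, w i j * w i j = 1) {T : Finset (Fin r)} {b c : Fin r} (hb : b ∈ T) (hc : c ∈ T)
    (hne : b ≠ c) (hbc : ∀ i, w b i = w c i) :
    sgn w T Fin.val (fun i => (Equiv.swap b c i : ℕ)) = w b c := by
  rcases lt_or_gt_of_ne hne with h | h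
  · exact Sgn_swap_lt hw hw2 hb hc h hbc
  · rw [Equiv.swap_comm, hw b c]
    exact Sgn_swap_lt hw hw2 hc hb h fun i => (hbc i).symm

theorem wt_symm {𝒯 : Thy} {r : ℕ} (X : Fin r → 𝒯.L) (i j : Fin r) : wt X i j = wt X j i := by
  unfold wt
  rw [mul_comm]

theorem wt_sq {𝒯 : Thy} {r : ℕ} (X : Fin r → 𝒯.L) (i j : Fin r) : wt X i j * wt X i j = 1 := by
  unfold wt
  rw [← mul_pow]
  simp

end Pool.Agent.VPR
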