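import Pool.Agent.VPR.Dd
import Pool.Agent.VPR.Sgn

/-!
# Permutations of the components

`Dd_perm`: induction on the number of `j` with `π j ≠ j`. If there is such a `j`, it is in `T`, and
so is
`π j` (otherwise `π` fixes `π j`, so `π (π j) = π j`, `π j = j`). Let `ρ = swap j (π j)`. It
preserves the
labels, and `π = ρ * π'` where `π' = ρ * π` fixes more elements (it fixes `j`, and everything fixed
by `π`;
compare `Equiv.Perm.swapFactorsAux` or `Equiv.Perm.card_support_swap_mul`), preserves the labels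
and is the
identity outside `T`. We have `perm (ρ * π') p = perm π' (perm ρ p)` (`perm_mul`). By `Dd_swap` and
the
induction hypothesis the factor is `(-1) ^ d (X j) * sgn π'`, and
`sgn (wt X) T val (val ∘ π) = sgn (wt X) T val (val ∘ π') * sgn (wt X) T (val ∘ π') (val ∘ ρ ∘ π')`
(`sgn_mul`), where the last factor is `sgn (wt X) T val (val ∘ ρ)` (`sgn_map` for the bijection
`π'` of
`T`, which preserves the weights), equal to `wt X j (π j) = (-1) ^ (d * d) = (-1) ^ d` by
`sgn_swap`.
-/

set_option autoImplicit false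

noncomputable section

namespace Pool.Agent.VPR

open scoped Classical

variable {𝒯 : Thy} {r r' : ℕ} {X : Fin r → 𝒯.L}

private theorem cast_cast_Perm {a b c : 𝒯.L} (h1 : a = b) (h2 : b = c) (h3 : a = c) (x : 𝒯.Pt a) :
    (h3 ▸ x : 𝒯.Pt c) = (h2 ▸ (h1 ▸ x : 𝒯.Pt b) : 𝒯.Pt c) := by
  subst h1
  subst h2
  rfl

theorem perm_mul (π ρ : Equiv.Perm (Fin r)) (hπ : ∀ j, X (π j) = X j) (hρ : ∀ j, X (ρ j) = X j)
    (h : ∀ j, X ((ρ * π) j) = X j) (p : Pts X) : perm (ρ * π) h p = perm π hπ (perm ρ hρ p) := by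
  funext j
  exact cast_cast_Perm (hρ (π j)) (hπ j) (h j) (p (ρ (π j)))

theorem perm_one (h : ∀ j, X ((1 : Equiv.Perm (Fin r)) j) = X j) (p : Pts X) :
    perm 1 h p = p := by
  funext j
  rfl

private theorem neg_one_pow_Perm (n : ℕ) : (-1 : ℤ) ^ (n * n) = (-1) ^ n := by
  rcases Nat.even_or_odd n with hn | hn
  · rw [hn.neg_one_pow, (hn.mul_right n).neg_one_pow]
  · rw [hn.neg_one_pow, (hn.mul hn).neg_one_pow]

private theorem image_Perm {T : Finset (Fin r)} (π : Equiv.Perm (Fin r))
    (hT : ∀ j, j ∉ T → π j = j) : T.image π = T := by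
  refine Finset.eq_of_subset_of_card_le ?_ ?_
  · intro j hj
    rw [Finset.mem_image] at hj
    obtain ⟨i, hi, rfl⟩ := hj
    by_contra hn
    exact hn ((π.injective (hT _ hn)).symm ▸ hi)
  · rw [Finset.card_image_of_injective _ π.injective]

private theorem Dd_perm_aux_Perm (h : 𝒯.Ok) {T : Finset (Fin r)} (n : ℕ) :
    ∀ (π : Equiv.Perm (Fin r)) (hπ : ∀ j, X (π j) = X j) (_ : ∀ j, j ∉ T → π j = j)
      (_ : (Finset.univ.filter fun j => π j ≠ j).card = n) (p q : Pts X),
      Dd T (perm π hπ p) (perm π hπ q) =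
        ((sgn (wt X) T Fin.val (fun j => (π j : ℕ)) : ℤ) : ℚ) • Dd T p q := by
  induction n using Nat.strong_induction_on with
  | _ n ih =>
  intro π hπ hT hn p q
  by_cases hall : ∀ j, π j = j
  · have h1 : π = 1 := Equiv.ext hall
    subst h1
    rw [perm_one, perm_one]
    have : sgn (wt X) T Fin.val (fun j => (((1 : Equiv.Perm (Fin r)) j : Fin r) : ℕ)) = 1 :=
      sgn_self (wt X) T Fin.val
    rw [this, Int.cast_one, one_smul]
  · push Not at hall
    obtain ⟨j, hj⟩ := hall
    have hjT : j ∈ T := by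
      by_contra hjT
      exact hj (hT j hjT)
    have hπj : π (π j) ≠ π j := fun h' => hj (π.injective h')
    have hπjT : π j ∈ T := by
      by_contra hjT
      exact hπj (hT _ hjT)
    have hρ : ∀ i, X (Equiv.swap j (π j) i) = X i := by
      intro i
      by_cases h1 : i = j
      · subst h1
        rw [Equiv.swap_apply_left]
        exact hπ i
      · by_cases h2 : i = π j
        · subst h2
          rw [Equiv.swap_apply_right]
          exact (hπ j).symm
        · rw [Equiv.swap_apply_of_ne_of_ne h1 h2]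
    obtain ⟨ρ, hρdef⟩ : ∃ ρ, ρ = Equiv.swap j (π j) := ⟨_, rfl⟩
    obtain ⟨π', hπ'def⟩ : ∃ π', π' = ρ * π := ⟨_, rfl⟩
    have hππ' : π = ρ * π' := by
      rw [hπ'def, hρdef, ← mul_assoc, Equiv.swap_mul_self, one_mul]
    have hfix : ∀ i, π i = i → π' i = i := by
      intro i hi
      have h1 : i ≠ j := fun h' => hj (h' ▸ hi)
      have h2 : i ≠ π j := fun h' => hπj (h' ▸ hi)
      rw [hπ'def, Equiv.Perm.mul_apply, hi, hρdef, Equiv.swap_apply_of_ne_of_ne h1 h2]
    have hfixj : π' j = j := by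
      rw [hπ'def, Equiv.Perm.mul_apply, hρdef, Equiv.swap_apply_right]
    have hπ' : ∀ i, X (π' i) = X i := by
      intro i
      rw [hπ'def, Equiv.Perm.mul_apply, hρdef, hρ (π i), hπ i]
    have hT' : ∀ i, i ∉ T → π' i = i := fun i hi => hfix i (hT i hi)
    have hcard : (Finset.univ.filter fun i => π' i ≠ i).card < n := by
      rw [← hn]
      refine Finset.card_lt_card ?_
      rw [Finset.ssubset_iff_of_subset]
      · refine ⟨j, ?_, ?_⟩
        · simp [hj]
        · simp [hfixj]
      · intro i hi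
        rw [Finset.mem_filter] at hi ⊢
        exact ⟨hi.1, fun h' => hi.2 (hfix i h')⟩
    have hρ' : ∀ i, X (ρ i) = X i := by
      rw [hρdef]
      exact hρ
    have key := ih _ hcard π' hπ' hT' rfl (perm ρ hρ' p) (perm ρ hρ' q)
    have hh : ∀ i, X ((ρ * π') i) = X i := by
      rw [← hππ']
      exact hπ
    have e1 : ∀ x : Pts X, perm π hπ x = perm π' hπ' (perm ρ hρ' x) := by
      intro x
      rw [← perm_mul π' ρ hπ' hρ' hh]
      congr 1
    have hsw : Dd T (perm ρ hρ' p) (perm ρ hρ' q) = (-1 : ℚ) ^ 𝒯.d (X j) • Dd T p q := by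
      subst hρdef
      exact Dd_swap h hjT hπjT hj.symm hρ p q
    rw [e1 p, e1 q, key, hsw, smul_smul]
    congr 1
    have hs1 : sgn (wt X) T Fin.val (fun i => (π i : ℕ)) =
        sgn (wt X) T Fin.val (fun i => (π' i : ℕ)) *
          sgn (wt X) T (fun i => (π' i : ℕ)) (fun i => (π i : ℕ)) := by
      refine sgn_mul (wt_symm X) (wt_sq X) ?_ ?_ ?_
      · exact Fin.val_injective.injOn
      · exact (Fin.val_injective.comp π'.injective).injOn
      · exact (Fin.val_injective.comp π.injective).injOn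
    have hs2 : sgn (wt X) T (fun i => (π' i : ℕ)) (fun i => (π i : ℕ)) =
        sgn (wt X) T Fin.val (fun i => (ρ i : ℕ)) := by
      rw [hππ']
      exact sgn_map (w := wt X) (w' := wt X) (T := T) (T' := T) (π := π') π'.injective.injOn
        (by convert image_Perm π' hT') (fun a _ b _ => by unfold wt; rw [hπ', hπ']) Fin.val
        (fun i => (ρ i : ℕ))
    have hs3 : sgn (wt X) T Fin.val (fun i => (ρ i : ℕ)) = wt X j (π j) := by
      rw [hρdef]
      exact sgn_swap (wt_symm X) (wt_sq X) hjT hπjT hj.symm fun i => by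
        unfold wt
        rw [hπ j]
    have hs4 : wt X j (π j) = (-1) ^ 𝒯.d (X j) := by
      unfold wt
      rw [hπ j]
      exact neg_one_pow_Perm _
    rw [hs1, hs2, hs3, hs4]
    push_cast
    rfl

theorem Dd_perm (h : 𝒯.Ok) {T : Finset (Fin r)} (π : Equiv.Perm (Fin r))
    (hπ : ∀ j, X (π j) = X j) (hT : ∀ j, j ∉ T → π j = j) (p q : Pts X) :
    Dd T (perm π hπ p) (perm π hπ q) =
      ((sgn (wt X) T Fin.val (fun j => (π j : ℕ)) : ℤ) : ℚ) • Dd T p q :=
  Dd_perm_aux_Perm h _ π hπ hT rfl p q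

end Pool.Agent.VPR
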