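import Pool.Agent.VPR.Thy

/-!
# The filtration and the projections with a base point

`V X` is the Chow group, `cl P` the class of a point, `push h f` the push-forward by a morphism. For a
base point `o` of the product let `prM R o` be the projection which replaces the components with
numbers outside `R` by those of `o`, and `qM S o = ∑ R ⊆ S, (-1) ^ #(S \ R) push (prM R o)`.

* `sum_qM`: `∑ S, qM S o = ∑ R, (∑ S ⊇ R, (-1) ^ #(S \ R)) push (prM R o)`, and the inner sum is zero
  unless `R` is the set of all numbers (`Finset.sum_powerset_neg_one_pow_card`); the projection for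
  `R = univ` is the identity.
* `qM_kill`: let `b ∈ S \ U`. The subsets `R` of `S` come in pairs `R`, `insert b R` with opposite signs.
  `L (cl (mix R P o)) = L (cl (mix U (mix R P o) o)) = L (cl (mix (U ∩ R) P o))`, which is the same for
  the two sets. (It suffices to check the claim on the classes `cl P`, `V_hom_ext`.)
* `mem_Fil`: `prM R o` is the composition of `proj X s`, where `s` enumerates `R`
  (`Finset.orderEmbOfFin`), and a morphism from `fun j => X (s j)` to `X` (constant components `o`
  outside `R`; `h.push`, `h.act_e`), and conversely `proj X s` is the composition of `prM R o` for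
  `R = univ.image s` and the morphism `proj X s` (`h.push` for the morphism with components the
  factors `s j` and the automorphisms `e`). `dimT X (univ.image s) = dim (X ∘ s)`.
-/

set_option autoImplicit false

noncomputable section

namespace Pool.Agent.VPR

open scoped Classical

variable {𝒯 : Thy} {r r' : ℕ} {X : Fin r → 𝒯.L} {X' : Fin r' → 𝒯.L}

/-- the Chow group -/
abbrev V (X : Fin r → 𝒯.L) : Type := (Pts X →₀ ℚ) ⧸ 𝒯.Rat X

/-- the class of a point -/
def cl (P : Pts X) : V X := Submodule.Quotient.mk (Finsupp.single P 1)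

theorem V_hom_ext {W : Type} [AddCommGroup W] [Module ℚ W] {L L' : V X →ₗ[ℚ] W}
    (h : ∀ P, L (cl P) = L' (cl P)) : L = L' := by
  refine Submodule.linearMap_qext _ (Finsupp.lhom_ext' fun P => LinearMap.ext_ring ?_)
  exact h P

/-- the push-forward by a morphism -/
def push (h : 𝒯.Ok) (f : Mor X X') : V X →ₗ[ℚ] V X' :=
  Submodule.mapQ _ _ (Finsupp.lmapDomain ℚ ℚ f.app) (h.push X X' f)

theorem push_mk (h : 𝒯.Ok) (f : Mor X X') (z : Pts X →₀ ℚ) :
    push h f (Submodule.Quotient.mk z) = Submodule.Quotient.mk (Finsupp.lmapDomain ℚ ℚ f.app z) :=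
  rfl

theorem push_cl (h : 𝒯.Ok) (f : Mor X X') (P : Pts X) : push h f (cl P) = cl (f.app P) := by
  unfold cl
  rw [push_mk, Finsupp.lmapDomain_apply, Finsupp.mapDomain_single]

/-- the components with numbers in `R` are those of `p`, the others are those of `q` -/
def mix (R : Finset (Fin r)) (p q : Pts X) : Pts X := fun j => if j ∈ R then p j else q j

/-- the projection -/
def prM (R : Finset (Fin r)) (o : Pts X) : Mor X X where
  src j := if j ∈ R then some ⟨j, rfl⟩ else none
  g j := 𝒯.e (X j)
  o := o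

theorem prM_app (h : 𝒯.Ok) (R : Finset (Fin r)) (o P : Pts X) :
    (prM R o).app P = mix R P o := by
  funext j
  unfold Mor.app prM mix
  by_cases hj : j ∈ R
  · simp only [if_pos hj]
    exact h.act_e _ _
  · simp only [if_neg hj]

/-- the part of a class which depends on the components with numbers in `S` -/
def qM (h : 𝒯.Ok) (S : Finset (Fin r)) (o : Pts X) : V X →ₗ[ℚ] V X :=
  ∑ R ∈ S.powerset, (-1 : ℚ) ^ (S \ R).card • push h (prM R o)

/-- Moebius inversion on the set of the subsets -/
private theorem Q_moebius {A W : Type*} [DecidableEq A] [AddCommGroup W] [Module ℚ W]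
    (f : Finset A → W) (B : Finset A) :
    ∑ T ∈ B.powerset, ∑ U ∈ T.powerset, ((-1 : ℚ) ^ (T \ U).card) • f U = f B := by
  have h1 : ∑ T ∈ B.powerset, ∑ U ∈ T.powerset, ((-1 : ℚ) ^ (T \ U).card) • f U =
      ∑ U ∈ B.powerset, ∑ T ∈ B.powerset with U ⊆ T, ((-1 : ℚ) ^ (T \ U).card) • f U := by
    rw [Finset.sum_comm']
    intro T U
    simp only [Finset.mem_powerset, Finset.mem_filter]
    exact ⟨fun h => ⟨⟨h.1, h.2⟩, h.2.trans h.1⟩, fun h => ⟨h.1.1, h.1.2⟩⟩
  rw [h1, Finset.sum_eq_single_of_mem B (Finset.mem_powerset.2 Finset.Subset.rfl)]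
  · rw [Finset.sum_eq_single_of_mem B (by simp)]
    · simp
    · intro T hT hTB
      simp only [Finset.mem_filter, Finset.mem_powerset] at hT
      exact absurd (hT.1.antisymm hT.2) hTB
  · intro U hU hUB
    rw [Finset.mem_powerset] at hU
    rw [← Finset.sum_smul]
    have h2 : ∑ T ∈ B.powerset with U ⊆ T, ((-1 : ℚ) ^ (T \ U).card) =
        ∑ W ∈ (B \ U).powerset, ((-1 : ℚ) ^ W.card) := by
      refine Finset.sum_bij' (fun T _ => T \ U) (fun W _ => U ∪ W) ?_ ?_ ?_ ?_ ?_
      · intro T hT
        simp only [Finset.mem_filter, Finset.mem_powerset] at hT ⊢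
        exact Finset.sdiff_subset_sdiff hT.1 Finset.Subset.rfl
      · intro W hW
        simp only [Finset.mem_filter, Finset.mem_powerset] at hW ⊢
        exact ⟨Finset.union_subset hU (hW.trans Finset.sdiff_subset), Finset.subset_union_left⟩
      · intro T hT
        simp only [Finset.mem_filter, Finset.mem_powerset] at hT
        exact Finset.union_sdiff_of_subset hT.2
      · intro W hW
        rw [Finset.mem_powerset] at hW
        rw [Finset.union_sdiff_cancel_left]
        exact (Finset.disjoint_sdiff).mono_right hW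
      · intro T _
        rfl
    rw [h2]
    have h3 : ∑ W ∈ (B \ U).powerset, ((-1 : ℚ) ^ W.card) = 0 := by
      have h4 : ((∑ W ∈ (B \ U).powerset, ((-1 : ℤ) ^ W.card) : ℤ) : ℚ) = 0 := by
        rw [Finset.sum_powerset_neg_one_pow_card, if_neg]
        · norm_num
        · rw [Finset.sdiff_eq_empty_iff_subset]
          exact fun h => hUB (hU.antisymm h)
      rw [← h4]
      push_cast
      rfl
    rw [h3, zero_smul]

theorem sum_qM (h : 𝒯.Ok) (o : Pts X) : ∑ S : Finset (Fin r), qM h S o = LinearMap.id := by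
  have h1 := Q_moebius (fun R => push (X := X) h (prM R o)) (Finset.univ : Finset (Fin r))
  rw [Finset.powerset_univ] at h1
  unfold qM
  rw [h1]
  refine V_hom_ext fun P => ?_
  rw [push_cl, prM_app h, LinearMap.id_apply]
  congr 1
  funext j
  exact if_pos (Finset.mem_univ j)

theorem qM_kill (h : 𝒯.Ok) {o : Pts X} {W : Type} [AddCommGroup W] [Module ℚ W]
    {L : V X →ₗ[ℚ] W} {U S : Finset (Fin r)} (hL : ∀ P, L (cl (mix U P o)) = L (cl P))
    (hS : ¬ S ⊆ U) (z : V X) : L (qM h S o z) = 0 := by
  obtain ⟨b, hbS, hbU⟩ := Finset.not_subset.1 hS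
  suffices h1 : L ∘ₗ qM h S o = 0 by
    have h2 := LinearMap.congr_fun h1 z
    simpa using h2
  refine V_hom_ext fun P => ?_
  rw [LinearMap.comp_apply, LinearMap.zero_apply]
  have hmix : ∀ R, L (cl (mix R P o)) = L (cl (mix (U ∩ R) P o)) := by
    intro R
    rw [← hL (mix R P o)]
    congr 2
    funext j
    unfold mix
    by_cases h1 : j ∈ U <;> by_cases h2 : j ∈ R <;> simp [h1, h2]
  have h3 : L (qM h S o (cl P)) =
      ∑ R ∈ S.powerset, (-1 : ℚ) ^ (S \ R).card • L (cl (mix (U ∩ R) P o)) := by
    unfold qM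
    rw [LinearMap.sum_apply, map_sum]
    refine Finset.sum_congr rfl fun R _ => ?_
    rw [LinearMap.smul_apply, map_smul, push_cl, prM_app h, hmix]
  rw [h3]
  have h4 : S = insert b (S.erase b) := (Finset.insert_erase hbS).symm
  have h5 : S.powerset = (insert b (S.erase b)).powerset := by rw [← h4]
  rw [h5, Finset.sum_powerset_insert (Finset.notMem_erase b S), ← Finset.sum_add_distrib]
  refine Finset.sum_eq_zero fun R hR => ?_
  rw [Finset.mem_powerset] at hR
  have hbR : b ∉ R := fun h => Finset.notMem_erase b S (hR h)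
  have h6 : U ∩ insert b R = U ∩ R := by
    ext j
    simp only [Finset.mem_inter, Finset.mem_insert]
    constructor
    · rintro ⟨h7, h8 | h8⟩
      · exact absurd (h8 ▸ h7) hbU
      · exact ⟨h7, h8⟩
    · rintro ⟨h7, h8⟩
      exact ⟨h7, Or.inr h8⟩
  have h7 : (S \ R).card = (S \ insert b R).card + 1 := by
    rw [Finset.sdiff_insert, Finset.card_erase_of_mem (Finset.mem_sdiff.2 ⟨hbS, hbR⟩)]
    have : 0 < (S \ R).card := Finset.card_pos.2 ⟨b, Finset.mem_sdiff.2 ⟨hbS, hbR⟩⟩
    omega
  rw [h6, h7, pow_succ, mul_neg_one, neg_smul, neg_add_cancel]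

private theorem Q_sum_dim (s : Fin r' → Fin r) (hs : Function.Injective s) :
    dimT X (Finset.univ.image s) = dim fun j => X (s j) := by
  unfold dim dimT
  rw [Finset.sum_image fun i _ j _ hij => hs hij]

/-- the projection as a morphism -/
private def Q_pr (o : Pts X) (s : Fin r' → Fin r) : Mor X fun j => X (s j) where
  src j := some ⟨s j, rfl⟩
  g j := 𝒯.e (X (s j))
  o := fun j => o (s j)

private theorem Q_pr_app (h : 𝒯.Ok) (o : Pts X) (s : Fin r' → Fin r) (P : Pts X) :
    (Q_pr o s).app P = proj X s P := by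
  funext j
  exact h.act_e _ _

/-- the inclusion as a morphism -/
private def Q_inc (o : Pts X) (s : Fin r' → Fin r) : Mor (fun j => X (s j)) X where
  src j := if hj : ∃ i, s i = j then some ⟨hj.choose, congrArg X hj.choose_spec⟩ else none
  g j := 𝒯.e (X j)
  o := o

private theorem Q_cast {P : Pts X} {i j : Fin r} (hij : i = j) :
    (congrArg X hij ▸ P i : 𝒯.Pt (X j)) = P j := by
  subst hij
  rfl

private theorem Q_inc_app (h : 𝒯.Ok) (o : Pts X) (s : Fin r' → Fin r) (P : Pts X) :
    (Q_inc o s).app (proj X s P) = mix (Finset.univ.image s) P o := by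
  funext j
  unfold Mor.app Q_inc mix
  by_cases hj : ∃ i, s i = j
  · have h1 : j ∈ Finset.univ.image s := by
      obtain ⟨i, hi⟩ := hj
      exact Finset.mem_image.2 ⟨i, Finset.mem_univ i, hi⟩
    simp only [dif_pos hj, if_pos h1]
    rw [h.act_e]
    exact Q_cast hj.choose_spec
  · have h1 : j ∉ Finset.univ.image s := by
      intro h2
      obtain ⟨i, -, hi⟩ := Finset.mem_image.1 h2
      exact hj ⟨i, hi⟩
    simp only [dif_neg hj, if_neg h1]

private theorem Q_iff (h : 𝒯.Ok) (o : Pts X) (s : Fin r' → Fin r) (z : Pts X →₀ ℚ) :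
    (Finsupp.lmapDomain ℚ ℚ (proj X s) z ∈ 𝒯.Rat fun j => X (s j)) ↔
      push h (prM (Finset.univ.image s) o) (Submodule.Quotient.mk z) = 0 := by
  rw [push_mk, Submodule.Quotient.mk_eq_zero]
  constructor
  · intro hz
    have h1 := h.push _ _ (Q_inc o s) hz
    rw [Submodule.mem_comap] at h1
    have h2 : (prM (Finset.univ.image s) o).app = (Q_inc o s).app ∘ proj X s := by
      funext P
      rw [Function.comp_apply, Q_inc_app h, prM_app h]
    rw [h2, Finsupp.lmapDomain_comp, LinearMap.comp_apply]
    exact h1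
  · intro hz
    have h1 := h.push _ _ (Q_pr o s) hz
    rw [Submodule.mem_comap] at h1
    have h2 : proj X s = (Q_pr o s).app ∘ (prM (Finset.univ.image s) o).app := by
      funext P
      rw [Function.comp_apply, Q_pr_app h, prM_app h]
      funext j
      exact (if_pos (Finset.mem_image.2 ⟨j, Finset.mem_univ j, rfl⟩)).symm
    rw [h2, Finsupp.lmapDomain_comp, LinearMap.comp_apply]
    exact h1

theorem mem_Fil (h : 𝒯.Ok) (o : Pts X) {ν : ℕ} {z : Pts X →₀ ℚ} : z ∈ Fil X ν ↔
    ∀ R, dimT X R < ν → push h (prM R o) (Submodule.Quotient.mk z) = 0 := by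
  constructor
  · intro hz R hR
    have h1 : Finset.univ.image (R.orderEmbOfFin rfl) = R := by
      rw [Finset.image_orderEmbOfFin_univ]
    have h2 := hz R.card (R.orderEmbOfFin rfl) (R.orderEmbOfFin rfl).injective (by
      rw [← Q_sum_dim _ (R.orderEmbOfFin rfl).injective, h1]
      exact hR)
    rw [Q_iff h o, h1] at h2
    exact h2
  · intro hz t s hs ht
    rw [Q_iff h o]
    refine hz _ ?_
    rw [Q_sum_dim s hs]
    exact ht

/-- from `mem_Fil` and the definition of `qM`: `dimT X R ≤ dimT X S` for `R ⊆ S` -/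
theorem qM_Fil (h : 𝒯.Ok) (o : Pts X) {ν : ℕ} {z : Pts X →₀ ℚ} (hz : z ∈ Fil X ν)
    {S : Finset (Fin r)} (hS : dimT X S < ν) : qM h S o (Submodule.Quotient.mk z) = 0 := by
  unfold qM
  rw [LinearMap.sum_apply]
  refine Finset.sum_eq_zero fun R hR => ?_
  rw [Finset.mem_powerset] at hR
  rw [LinearMap.smul_apply, (mem_Fil h o).1 hz R
    ((Finset.sum_le_sum_of_subset hR).trans_lt hS), smul_zero]

end Pool.Agent.VPR
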