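import Pool.Agent.VPR.Perm

/-!
# Images of products of differences under morphisms

* `Dd_src`: apply the definitions; `push_cl`, `prM_app`. The sets `R ⊆ S` correspond to the sets
  `R' = {j ∈ T' | the source of j is in R}` of `T'` (by `f.Pull T' S` the source is a bijection
  between `T'` and `S`), `mix T' (f.app (mix R P o)) o' = mix R' (f.app P) (mix T' (f.app o) o')`,
  and `T' \ R'` has as many elements as `S \ R`.
* `exists_perm`: the sources under `f` and `f₀` are bijections from `T'` to `S`; let `π` on `T'` be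
  the first one followed by the inverse of the second one, and the identity outside `T'`. The labels
  agree because the label of `j ∈ T'` is the label of its source.
* `Dd_coef`: for `j ∈ T'` we have `f.app P j = act (g j) ((pure f).app P j)`, so by `Dd_act` (and
  `Dd_congr`) the left side is the product of the `sg` times the same for `pure f`. With `π` of
  `exists_perm` we have `(pure f).app P j = perm π ((pure f₀).app P) j` for `j ∈ T'`, so `Dd_perm`
  gives the factor `sgn (wt X') T' val (val ∘ π)`. And `f.num j = f₀.num (π j)` for `j ∈ T'`, so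
  `sgn_mul` and `sgn_map` (`sgn_congr`) give `sgn T' val f.num = sgn T' val (val ∘ π) *
  sgn T' val f₀.num`; multiply with `sgn T' val f₀.num` (`sgn_sq`).
-/

set_option autoImplicit false

noncomputable section

namespace Pool.Agent.VPR

open scoped Classical

variable {𝒯 : Thy} {r r' : ℕ} {X : Fin r → 𝒯.L} {X' : Fin r' → 𝒯.L}

private theorem app_some {f : Mor X X'} (P : Pts X) {j : Fin r'} {i : {i : Fin r // X i = X' j}}
    (hs : f.src j = some i) : f.app P j = 𝒯.act (X' j) (f.g j) (i.2 ▸ P i.1) := by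
  unfold Mor.app
  rw [hs]

private theorem map_eq_some {f : Mor X X'} {j : Fin r'} {i : Fin r}
    (hs : (f.src j).map Subtype.val = some i) : ∃ h : X i = X' j, f.src j = some ⟨i, h⟩ := by
  rw [Option.map_eq_some_iff] at hs
  obtain ⟨a, ha, rfl⟩ := hs
  exact ⟨a.2, ha⟩

/-- the components with source in `R` -/
private def pre (f : Mor X X') (T' : Finset (Fin r')) (R : Finset (Fin r)) : Finset (Fin r') :=
  T'.filter fun j => ∃ i ∈ R, (f.src j).map Subtype.val = some i

private theorem card_pre {f : Mor X X'} {T' : Finset (Fin r')} {S : Finset (Fin r)}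
    (hf : f.Pull T' S) {R : Finset (Fin r)} (hR : R ⊆ S) : (pre f T' R).card = R.card := by
  have h1 : (pre f T' R).image (fun j => (f.src j).map Subtype.val) = R.image some := by
    ext x
    rw [Finset.mem_image, Finset.mem_image]
    constructor
    · rintro ⟨j, hj, rfl⟩
      obtain ⟨i, hi, hs⟩ := (Finset.mem_filter.1 hj).2
      exact ⟨i, hi, hs.symm⟩
    · rintro ⟨i, hi, rfl⟩
      obtain ⟨j, hj, hs⟩ := hf.2.2 i (hR hi)
      exact ⟨j, Finset.mem_filter.2 ⟨hj, i, hi, hs⟩, hs⟩
  have h2 : Set.InjOn (fun j => (f.src j).map Subtype.val) (pre f T' R : Set (Fin r')) := by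
    intro a ha b hb hab
    exact hf.2.1 a (Finset.mem_filter.1 ha).1 b (Finset.mem_filter.1 hb).1 hab
  rw [← Finset.card_image_of_injOn h2, h1, Finset.card_image_of_injective _
    (Option.some_injective _)]

private theorem sdiff_pre {f : Mor X X'} {T' : Finset (Fin r')} {S : Finset (Fin r)}
    (hf : f.Pull T' S) (R : Finset (Fin r)) : T' \ pre f T' R = pre f T' (S \ R) := by
  ext j
  rw [Finset.mem_sdiff]
  constructor
  · rintro ⟨h1, h2⟩
    obtain ⟨i, hi, hs⟩ := hf.1 j h1
    refine Finset.mem_filter.2 ⟨h1, i, Finset.mem_sdiff.2 ⟨hi, fun h3 => h2 ?_⟩, hs⟩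
    exact Finset.mem_filter.2 ⟨h1, i, h3, hs⟩
  · intro h1
    obtain ⟨h2, i, hi, hs⟩ := Finset.mem_filter.1 h1
    refine ⟨h2, fun h3 => ?_⟩
    obtain ⟨-, i', hi', hs'⟩ := Finset.mem_filter.1 h3
    rw [hs] at hs'
    rw [← Option.some.inj hs'] at hi'
    exact (Finset.mem_sdiff.1 hi).2 hi'

private theorem mix_app {f : Mor X X'} {T' : Finset (Fin r')} {S : Finset (Fin r)}
    (hf : f.Pull T' S) (o : Pts X) (o' : Pts X') (P : Pts X) (R : Finset (Fin r)) :
    mix T' (f.app (mix R P o)) o' = mix (pre f T' R) (f.app P) (mix T' (f.app o) o') := by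
  funext j
  unfold mix
  by_cases hj : j ∈ T'
  · rw [if_pos hj, if_pos hj]
    obtain ⟨i, hi, hs⟩ := hf.1 j hj
    obtain ⟨he, hs'⟩ := map_eq_some hs
    rw [app_some _ hs', app_some _ hs', app_some _ hs']
    by_cases hR : i ∈ R
    · have h1 : j ∈ pre f T' R := Finset.mem_filter.2 ⟨hj, i, hR, hs⟩
      rw [if_pos h1]
      simp only [if_pos hR]
    · have h1 : j ∉ pre f T' R := by
        intro h2
        obtain ⟨-, i', hi', hs2⟩ := Finset.mem_filter.1 h2
        rw [hs] at hs2
        rw [← Option.some.inj hs2] at hi'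
        exact hR hi'
      rw [if_neg h1]
      simp only [if_neg hR]
  · have h1 : j ∉ pre f T' R := fun h2 => hj (Finset.mem_filter.1 h2).1
    rw [if_neg hj, if_neg h1, if_neg hj]

theorem Dd_src (h : 𝒯.Ok) {f : Mor X X'} {T' : Finset (Fin r')} {S : Finset (Fin r)}
    (hf : f.Pull T' S) (o : Pts X) (o' : Pts X') (P : Pts X) :
    push h (prM T' o') (push h f (qM h S o (cl P))) = Dd T' (f.app P) (mix T' (f.app o) o') := by
  have h1 : push h (prM T' o') (push h f (qM h S o (cl P))) =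
      ∑ R ∈ S.powerset, (-1 : ℚ) ^ (S \ R).card •
        cl (mix (pre f T' R) (f.app P) (mix T' (f.app o) o')) := by
    unfold qM
    rw [LinearMap.sum_apply, map_sum, map_sum]
    refine Finset.sum_congr rfl fun R _ => ?_
    rw [LinearMap.smul_apply, map_smul, map_smul, push_cl, push_cl, push_cl, prM_app h, prM_app h,
      mix_app hf]
  rw [h1]
  unfold Dd
  refine Finset.sum_nbij' (fun R => pre f T' R)
    (fun R' => S.filter fun i => ∃ j ∈ R', (f.src j).map Subtype.val = some i) ?_ ?_ ?_ ?_ ?_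
  · intro R _
    rw [Finset.mem_powerset]
    exact Finset.filter_subset _ _
  · intro R' _
    rw [Finset.mem_powerset]
    exact Finset.filter_subset _ _
  · intro R hR
    rw [Finset.mem_powerset] at hR
    ext i
    constructor
    · intro hi
      obtain ⟨-, j, hj, hs⟩ := Finset.mem_filter.1 hi
      obtain ⟨-, i', hi', hs'⟩ := Finset.mem_filter.1 hj
      rw [hs] at hs'
      rw [Option.some.inj hs']
      exact hi'
    · intro hi
      obtain ⟨j, hj, hs⟩ := hf.2.2 i (hR hi)
      exact Finset.mem_filter.2 ⟨hR hi, j, Finset.mem_filter.2 ⟨hj, i, hi, hs⟩, hs⟩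
  · intro R' hR'
    rw [Finset.mem_powerset] at hR'
    ext j
    constructor
    · intro hj
      obtain ⟨hjT, i, hi, hs⟩ := Finset.mem_filter.1 hj
      obtain ⟨-, j', hj', hs'⟩ := Finset.mem_filter.1 hi
      rw [hf.2.1 j hjT j' (hR' hj') (hs.trans hs'.symm)]
      exact hj'
    · intro hj
      obtain ⟨i, hi, hs⟩ := hf.1 j (hR' hj)
      exact Finset.mem_filter.2 ⟨hR' hj, i, Finset.mem_filter.2 ⟨hi, j, hj, hs⟩, hs⟩
  · intro R _
    rw [sdiff_pre hf, card_pre hf Finset.sdiff_subset]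

private theorem exists_map {f f₀ : Mor X X'} {T' : Finset (Fin r')} {S : Finset (Fin r)}
    (hf : f.Pull T' S) (hf₀ : f₀.Pull T' S) (j : Fin r') : ∃ j₀, (j ∉ T' → j₀ = j) ∧
      (j ∈ T' → j₀ ∈ T' ∧ (f.src j).map Subtype.val = (f₀.src j₀).map Subtype.val) := by
  by_cases hj : j ∈ T'
  · obtain ⟨i, hi, hs⟩ := hf.1 j hj
    obtain ⟨j₀, hj₀, hs₀⟩ := hf₀.2.2 i hi
    exact ⟨j₀, fun h => absurd hj h, fun _ => ⟨hj₀, hs.trans hs₀.symm⟩⟩
  · exact ⟨j, fun _ => rfl, fun h => absurd h hj⟩

theorem exists_perm {f f₀ : Mor X X'} {T' : Finset (Fin r')} {S : Finset (Fin r)}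
    (hf : f.Pull T' S) (hf₀ : f₀.Pull T' S) : ∃ π : Equiv.Perm (Fin r'),
      (∀ j, X' (π j) = X' j) ∧ (∀ j, j ∉ T' → π j = j) ∧ (∀ j, j ∈ T' → π j ∈ T') ∧
      ∀ j ∈ T', (f.src j).map Subtype.val = (f₀.src (π j)).map Subtype.val := by
  choose a ha1 ha2 using exists_map hf hf₀
  choose b hb1 hb2 using exists_map hf₀ hf
  have hba : ∀ j, b (a j) = j := by
    intro j
    by_cases hj : j ∈ T'
    · obtain ⟨h1, h2⟩ := ha2 j hj
      obtain ⟨h3, h4⟩ := hb2 (a j) h1
      exact (hf.2.1 j hj _ h3 (h2.trans h4)).symm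
    · rw [ha1 j hj, hb1 j hj]
  have hab : ∀ j, a (b j) = j := by
    intro j
    by_cases hj : j ∈ T'
    · obtain ⟨h1, h2⟩ := hb2 j hj
      obtain ⟨h3, h4⟩ := ha2 (b j) h1
      exact (hf₀.2.1 j hj _ h3 (h2.trans h4)).symm
    · rw [hb1 j hj, ha1 j hj]
  refine ⟨⟨a, b, hba, hab⟩, fun j => ?_, fun j hj => ha1 j hj, fun j hj => (ha2 j hj).1,
    fun j hj => (ha2 j hj).2⟩
  show X' (a j) = X' j
  by_cases hj : j ∈ T'
  · obtain ⟨h1, h2⟩ := ha2 j hj
    obtain ⟨i, -, hs⟩ := hf.1 j hj
    obtain ⟨h3, -⟩ := map_eq_some hs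
    rw [hs] at h2
    obtain ⟨h4, -⟩ := map_eq_some h2.symm
    rw [← h3, ← h4]
  · rw [ha1 j hj]

/-- the morphism without the automorphisms -/
def Mor.pure (f : Mor X X') : Mor X X' where
  src := f.src
  g j := 𝒯.e (X' j)
  o := f.o

private theorem pure_some (h : 𝒯.Ok) {f : Mor X X'} (P : Pts X) {j : Fin r'}
    {i : {i : Fin r // X i = X' j}} (hs : f.src j = some i) : f.pure.app P j = i.2 ▸ P i.1 := by
  have h1 : f.pure.src j = some i := hs
  rw [app_some P h1]
  exact h.act_e _ _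

private theorem app_pure (h : 𝒯.Ok) {f : Mor X X'} {T' : Finset (Fin r')} {S : Finset (Fin r)}
    (hf : f.Pull T' S) (P : Pts X) {j : Fin r'} (hj : j ∈ T') :
    f.app P j = 𝒯.act _ (f.g j) (f.pure.app P j) := by
  obtain ⟨i, -, hs⟩ := hf.1 j hj
  obtain ⟨he, hs'⟩ := map_eq_some hs
  rw [app_some P hs', pure_some h P hs']

private theorem cast_cast {A : 𝒯.L → Type} {a b c : 𝒯.L} (h1 : a = b) (h2 : b = c) (h3 : a = c)
    (x : A a) : (h2 ▸ (h1 ▸ x : A b) : A c) = h3 ▸ x := by
  subst h1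
  subst h2
  rfl

private theorem pure_perm (h : 𝒯.Ok) {f f₀ : Mor X X'} {T' : Finset (Fin r')}
    {S : Finset (Fin r)} (hf : f.Pull T' S) (π : Equiv.Perm (Fin r'))
    (hπ : ∀ j, X' (π j) = X' j)
    (hs : ∀ j ∈ T', (f.src j).map Subtype.val = (f₀.src (π j)).map Subtype.val) (P : Pts X)
    {j : Fin r'} (hj : j ∈ T') : f.pure.app P j = hπ j ▸ f₀.pure.app P (π j) := by
  obtain ⟨i, -, h1⟩ := hf.1 j hj
  obtain ⟨he, h2⟩ := map_eq_some h1
  have h3 := hs j hj
  rw [h1] at h3
  obtain ⟨he', h4⟩ := map_eq_some h3.symm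
  rw [pure_some h P h2, pure_some h P h4]
  exact (cast_cast (A := 𝒯.Pt) he' (hπ j) he (P i)).symm

private theorem cast_fix (π : Equiv.Perm (Fin r')) (hπ : ∀ j, X' (π j) = X' j) (q : Pts X')
    {j : Fin r'} (hj : π j = j) : (hπ j ▸ q (π j) : 𝒯.Pt (X' j)) = q j := by
  have key : ∀ (j' : Fin r') (_ : j' = j) (h : X' j' = X' j), (h ▸ q j' : 𝒯.Pt (X' j)) = q j := by
    rintro j' rfl h
    rfl
  exact key _ hj _

private theorem num_some {f : Mor X X'} {j : Fin r'} {i : Fin r}
    (hs : (f.src j).map Subtype.val = some i) : f.num j = i := by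
  obtain ⟨he, hs'⟩ := map_eq_some hs
  unfold Mor.num
  rw [hs']
  rfl

theorem Dd_coef (h : 𝒯.Ok) {f f₀ : Mor X X'} {T' : Finset (Fin r')} {S : Finset (Fin r)}
    (hf : f.Pull T' S) (hf₀ : f₀.Pull T' S) (o : Pts X) (o' : Pts X') (P : Pts X) :
    Dd T' (f.app P) (mix T' (f.app o) o') =
      ((f.coef T' * sgn (wt X') T' Fin.val f₀.num : ℤ) : ℚ) •
        Dd T' (f₀.pure.app P) (mix T' (f₀.pure.app o) o') := by
  obtain ⟨π, hπ, hfix, hmap, hs⟩ := exists_perm hf hf₀
  -- the automorphisms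
  have e1 : Dd T' (f.app P) (mix T' (f.app o) o') =
      ((∏ j ∈ T', 𝒯.sg _ (f.g j) : ℤ) : ℚ) •
        Dd T' (f.pure.app P) (mix T' (f.pure.app o) o') := by
    rw [← Dd_act h]
    have h1 : mix T' (f.app o) o' = fun j => if j ∈ T' then
        𝒯.act _ (f.g j) (mix T' (f.pure.app o) o' j) else mix T' (f.pure.app o) o' j := by
      funext j
      unfold mix
      by_cases hj : j ∈ T'
      · rw [if_pos hj, if_pos hj, if_pos hj, app_pure h hf o hj]
      · rw [if_neg hj, if_neg hj, if_neg hj]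
    rw [h1]
    exact Dd_congr fun j hj => app_pure h hf P hj
  -- the permutation
  have e2 : Dd T' (f.pure.app P) (mix T' (f.pure.app o) o') =
      ((sgn (wt X') T' Fin.val (fun j => (π j : ℕ)) : ℤ) : ℚ) •
        Dd T' (f₀.pure.app P) (mix T' (f₀.pure.app o) o') := by
    rw [← Dd_perm h π hπ hfix]
    have h1 : mix T' (f.pure.app o) o' = perm π hπ (mix T' (f₀.pure.app o) o') := by
      funext j
      unfold perm
      by_cases hj : j ∈ T'
      · have h2 : mix T' (f₀.pure.app o) o' (π j) = f₀.pure.app o (π j) := if_pos (hmap j hj)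
        have h3 : mix T' (f.pure.app o) o' j = f.pure.app o j := if_pos hj
        rw [h2, h3]
        exact pure_perm h hf π hπ hs o hj
      · rw [cast_fix π hπ _ (hfix j hj)]
        unfold mix
        rw [if_neg hj, if_neg hj]
    rw [h1]
    refine Dd_congr fun j hj => ?_
    exact pure_perm h hf π hπ hs P hj
  -- the signs
  have inj1 : Set.InjOn (Fin.val : Fin r' → ℕ) T' := fun a _ b _ hab => Fin.ext hab
  have inj2 : Set.InjOn (fun j => (π j : ℕ)) (T' : Set (Fin r')) := fun a _ b _ hab =>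
    π.injective (Fin.ext hab)
  have inj3 : Set.InjOn f.num (T' : Set (Fin r')) := by
    intro a ha b hb hab
    obtain ⟨i, -, h1⟩ := hf.1 a ha
    obtain ⟨i', -, h1'⟩ := hf.1 b hb
    rw [num_some h1, num_some h1'] at hab
    apply hf.2.1 a ha b hb
    rw [h1, h1', Fin.ext hab]
  have hw2 := wt_sq X'
  have e3 : sgn (wt X') T' Fin.val f.num = sgn (wt X') T' Fin.val (fun j => (π j : ℕ)) *
      sgn (wt X') T' Fin.val f₀.num := by
    rw [sgn_mul (wt_symm X') hw2 inj1 inj2 inj3]
    congr 1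
    have himg : T'.image π = T' := by
      apply Finset.eq_of_subset_of_card_le
      · intro x hx
        obtain ⟨y, hy, rfl⟩ := Finset.mem_image.1 hx
        exact hmap y hy
      · rw [Finset.card_image_of_injective _ π.injective]
    have e5 := sgn_map (w := wt X') (w' := wt X') (T := T') (T' := T') (π := π)
      (π.injective.injOn) (by convert himg) (fun i _ j _ => by unfold wt; rw [hπ, hπ])
      Fin.val f₀.num
    rw [← e5]
    refine sgn_congr (fun _ _ _ _ => rfl) (fun _ _ => rfl) fun j hj => ?_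
    obtain ⟨i, -, h1⟩ := hf.1 j hj
    have h2 := hs j hj
    rw [h1] at h2
    rw [num_some h1, num_some h2.symm]
  have e4 : f.coef T' * sgn (wt X') T' Fin.val f₀.num =
      (∏ j ∈ T', 𝒯.sg _ (f.g j)) * sgn (wt X') T' Fin.val (fun j => (π j : ℕ)) := by
    unfold Mor.coef
    rw [e3, mul_assoc, mul_assoc, sgn_sq hw2, mul_one]
  rw [e1, e2, e4, smul_smul]
  congr 1
  push_cast
  rfl

end Pool.Agent.VPR
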