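import Mathlib

/-!
# Zero-cycles on products of varieties with one holomorphic form: the filtration

A class of varieties (`Thy`) is given by labels `l : L`. For every label there is a variety with the
set of points `Pt l`, the dimension `d l`, a set of automorphisms `G l`, and a sign `sg l g`: the variety
has, up to constants, exactly one holomorphic form of positive degree, it is of degree `d l`, and its
pull-back by the automorphism `g` is `sg l g` times the form. A product of such varieties is given by
the labels `X : Fin r → L` of its factors. `Rat X` are the zero-cycles (with rational coefficients) on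
the product which are rationally equivalent to zero.

We define the filtration `Fil X ν` on the zero-cycles, the morphisms `Mor X X'` between products whose
components are constant or a factor followed by an automorphism, and the condition `KillsForms` for
combinations of such morphisms.
-/

set_option autoImplicit false

noncomputable section

namespace Pool.Agent.VPR

open scoped Classical

/-- The data of a class of varieties. -/
structure Thy where
  /-- the labels of the varieties -/
  L : Type
  /-- the points of a variety -/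
  Pt : L → Type
  /-- automorphisms -/
  G : L → Type
  /-- the identity -/
  e : ∀ l, G l
  /-- the action on the points -/
  act : ∀ l, G l → Pt l → Pt l
  /-- the action on the holomorphic form of the highest degree -/
  sg : ∀ l, G l → ℤ
  /-- the dimension -/
  d : L → ℕ
  /-- the zero-cycles on products which are rationally equivalent to zero -/
  Rat : ∀ {r : ℕ} (X : Fin r → L), Submodule ℚ ((∀ j, Pt (X j)) →₀ ℚ)

variable {𝒯 : Thy} {r r' : ℕ}

/-- the points of a product -/
abbrev Pts (X : Fin r → 𝒯.L) : Type := ∀ j, 𝒯.Pt (X j)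

/-- the dimension of the product of the factors with numbers in `T` -/
def dimT (X : Fin r → 𝒯.L) (T : Finset (Fin r)) : ℕ := ∑ j ∈ T, 𝒯.d (X j)

/-- the dimension of a product -/
def dim (X : Fin r → 𝒯.L) : ℕ := dimT X Finset.univ

/-- the projection to the product of the factors with numbers `s 0, s 1, …` -/
def proj (X : Fin r → 𝒯.L) {t : ℕ} (s : Fin t → Fin r) (P : Pts X) : Pts fun j => X (s j) :=
  fun j => P (s j)

/-- `F^ν`: the cycles whose images under the projections to products of different factors of
dimension less than `ν` are rationally equivalent to zero -/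
def Fil (X : Fin r → 𝒯.L) (ν : ℕ) : Submodule ℚ (Pts X →₀ ℚ) where
  carrier := {z | ∀ (t : ℕ) (s : Fin t → Fin r), Function.Injective s →
    dim (fun j => X (s j)) < ν → Finsupp.lmapDomain ℚ ℚ (proj X s) z ∈ 𝒯.Rat fun j => X (s j)}
  add_mem' := by
    intro z w hz hw t s hs h
    rw [map_add]
    exact Submodule.add_mem _ (hz t s hs h) (hw t s hs h)
  zero_mem' := by
    intro t s hs h
    rw [map_zero]
    exact Submodule.zero_mem _
  smul_mem' := by
    intro c z hz t s hs h
    rw [map_smul]
    exact Submodule.smul_mem _ c (hz t s hs h)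

/-- A morphism between two products: every component is constant, or it is a factor of the same kind
followed by an automorphism. -/
structure Mor (X : Fin r → 𝒯.L) (X' : Fin r' → 𝒯.L) where
  /-- the factor on which the component `j'` depends, or nothing -/
  src : ∀ j', Option {j : Fin r // X j = X' j'}
  /-- the automorphisms -/
  g : ∀ j', 𝒯.G (X' j')
  /-- the constant components -/
  o : ∀ j', 𝒯.Pt (X' j')

/-- the image of a point -/
def Mor.app {X : Fin r → 𝒯.L} {X' : Fin r' → 𝒯.L} (f : Mor X X') (P : Pts X) : Pts X' :=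
  fun j' => match f.src j' with
    | some j => 𝒯.act (X' j') (f.g j') (j.2 ▸ P j.1)
    | none => f.o j'

/-- the push-forward of cycles by a combination of morphisms -/
def pushM {X : Fin r → 𝒯.L} {X' : Fin r' → 𝒯.L} (γ : Mor X X' →₀ ℚ) :
    (Pts X →₀ ℚ) →ₗ[ℚ] (Pts X' →₀ ℚ) :=
  γ.sum fun f c => c • Finsupp.lmapDomain ℚ ℚ f.app

/-- The pull-back of the form `ω_T'` (the product of the forms on the factors with numbers in `T'`) by
`f` is a multiple of `ω_S`: the components with numbers in `T'` are given by the different factors with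
numbers in `S`. -/
def Mor.Pull {X : Fin r → 𝒯.L} {X' : Fin r' → 𝒯.L} (f : Mor X X') (T' : Finset (Fin r'))
    (S : Finset (Fin r)) : Prop :=
  (∀ j ∈ T', ∃ i ∈ S, (f.src j).map Subtype.val = some i) ∧
  (∀ i ∈ T', ∀ j ∈ T', (f.src i).map Subtype.val = (f.src j).map Subtype.val → i = j) ∧
  ∀ i ∈ S, ∃ j ∈ T', (f.src j).map Subtype.val = some i

/-- the number of the source of a component (zero for a constant component) -/
def Mor.num {X : Fin r → 𝒯.L} {X' : Fin r' → 𝒯.L} (f : Mor X X') (j : Fin r') : ℕ :=
  (f.src j).elim 0 fun i => (i.1 : ℕ)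

/-- The sign of a map `μ` on the set `T` with the order given by `κ`: the product of the `w i j` for all
pairs whose order is reversed. -/
def sgn {I : Type} (w : I → I → ℤ) (T : Finset I) (κ μ : I → ℕ) : ℤ :=
  ∏ i ∈ T, ∏ j ∈ T, if κ i < κ j ∧ μ j < μ i then w i j else 1

/-- the sign for the exchange of the forms on two factors -/
def wt (X : Fin r → 𝒯.L) (i j : Fin r) : ℤ := (-1) ^ (𝒯.d (X i) * 𝒯.d (X j))

/-- The coefficient of the pull-back of the form `ω_T'`: the automorphisms contribute `sg`, and the
permutation of the factors contributes the sign rule for products of forms. -/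
def Mor.coef {X : Fin r → 𝒯.L} {X' : Fin r' → 𝒯.L} (f : Mor X X') (T' : Finset (Fin r')) : ℤ :=
  (∏ j ∈ T', 𝒯.sg (X' j) (f.g j)) * sgn (wt X') T' Fin.val f.num

/-- The combination `γ` of morphisms kills all holomorphic `ν`-forms: they have the basis `ω_T'`, where
`T'` runs through the sets of factors with product of dimension `ν`. -/
def KillsForms {X : Fin r → 𝒯.L} {X' : Fin r' → 𝒯.L} (γ : Mor X X' →₀ ℚ) (ν : ℕ) : Prop :=
  ∀ T' : Finset (Fin r'), dimT X' T' = ν → ∀ S : Finset (Fin r),
    ∑ f ∈ γ.support.filter (fun f => f.Pull T' S), γ f * (f.coef T' : ℚ) = 0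

/-- The laws which we use. -/
structure Thy.Ok (𝒯 : Thy) : Prop where
  act_e : ∀ l p, 𝒯.act l (𝒯.e l) p = p
  sg_e : ∀ l, 𝒯.sg l (𝒯.e l) = 1
  d_pos : ∀ l, 0 < 𝒯.d l
  ne : ∀ l, Nonempty (𝒯.Pt l)
  deg : ∀ {r : ℕ} (X : Fin r → 𝒯.L), ∀ z ∈ 𝒯.Rat X, (z.sum fun _ c => c) = 0
  push : ∀ {r r' : ℕ} (X : Fin r → 𝒯.L) (X' : Fin r' → 𝒯.L) (f : Mor X X'),
    𝒯.Rat X ≤ (𝒯.Rat X').comap (Finsupp.lmapDomain ℚ ℚ f.app)
  eq1 : ∀ l (g : 𝒯.G l) (p q : 𝒯.Pt l),
    (Finsupp.single (fun _ => 𝒯.act l g p) 1 - Finsupp.single (fun _ => 𝒯.act l g q) 1 -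
      (𝒯.sg l g : ℚ) • (Finsupp.single (fun _ => p) 1 - Finsupp.single (fun _ => q) 1) :
        Pts (fun _ : Fin 1 => l) →₀ ℚ) ∈ 𝒯.Rat fun _ : Fin 1 => l
  eq2 : ∀ l (p p' q q' : 𝒯.Pt l),
    (Finsupp.single ![p, q] 1 - Finsupp.single ![p, q'] 1 - Finsupp.single ![p', q] 1 +
      Finsupp.single ![p', q'] 1 - (-1 : ℚ) ^ 𝒯.d l • (Finsupp.single ![q, p] 1 -
        Finsupp.single ![q', p] 1 - Finsupp.single ![q, p'] 1 + Finsupp.single ![q', p'] 1) :
        Pts (fun _ : Fin 2 => l) →₀ ℚ) ∈ 𝒯.Rat fun _ : Fin 2 => l

end Pool.Agent.VPR
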